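import Pool.Statements.S01498
import Pool.Agent.Lib.MP_54ccb1_al.J2
import Pool.Agent.Lib.MP_54ccb1_al.H

set_option autoImplicit false
open Pool Pool.MP_54ccb1_al Pool.Agent.Lib.MP_54ccb1_al

namespace Pool.Agent.S01498

/-- The negation of the preceding statement: There is λ > 0 such that every group presented by cyclically reduced relators satisfying C'(λ) (each piece shorter than λ times the relator length) which is torsion-free has the unique product property. -/
theorem result :
    ¬ (∃ lam : ℝ, 0 < lam ∧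
      ∀ (α : Type) [DecidableEq α] (R : Set (FreeGroup α)),
        (∀ r ∈ R, ∀ n : ℕ,
          FreeGroup.toWord (FreeGroup.mk ((FreeGroup.toWord r).rotate n)) =
            (FreeGroup.toWord r).rotate n) →
        (∀ l₁ l₂ : List (α × Bool),
          (∃ r ∈ R, ∃ n : ℕ,
            l₁ = (FreeGroup.toWord r).rotate n ∨ l₁ = (FreeGroup.toWord r⁻¹).rotate n) →
          (∃ r ∈ R, ∃ n : ℕ,
            l₂ = (FreeGroup.toWord r).rotate n ∨ l₂ = (FreeGroup.toWord r⁻¹).rotate n) →
          l₁ ≠ l₂ →
          ∀ u : List (α × Bool), List.IsPrefix u l₁ → List.IsPrefix u l₂ →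
            (u.length : ℝ) < lam * (l₁.length : ℝ)) →
        (∀ g : PresentedGroup R, IsOfFinOrder g → g = 1) →
        UniqueProds (PresentedGroup R)) := by
  rintro ⟨lam, hlam, H⟩
  obtain ⟨k0, hk0⟩ := exists_nat_gt (8 / lam)
  obtain ⟨k, hk, hk'⟩ : ∃ k : ℕ, 4000 ≤ k ∧ k0 ≤ k := ⟨max 4000 k0, le_max_left _ _, le_max_right _ _⟩
  have hR := relSys_ex k hk
  refine not_up k hk (H (Fin 2) (Set.range (relr (nn k) (per0 k))) (frozen_cyc hR)
    (frozen_sc hR lam ?_) ?_)
  · intro σ
    have h1 : (8 : ℝ) < lam * k := by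
      have : (8 : ℝ) / lam < k := lt_of_lt_of_le hk0 (by exact_mod_cast hk')
      rw [div_lt_iff₀ hlam] at this
      linarith
    have h2 : ((k * k : ℕ) : ℝ) ≤ nn k σ := by exact_mod_cast nn_ge k σ
    have h3 : (1 : ℝ) ≤ k := by exact_mod_cast le_trans (by norm_num) hk
    have h4 : lam * (k * k) ≤ lam * nn k σ := by
      apply mul_le_mul_of_nonneg_left _ hlam.le
      exact_mod_cast nn_ge k σ
    have h5 : (8 : ℝ) * k < lam * (k * k) := by nlinarith
    push_cast
    linarith
  · intro g hg
    obtain ⟨w, rfl⟩ := PresentedGroup.mk_surjective _ g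
    obtain ⟨m, hm, hm'⟩ := isOfFinOrder_iff_pow_eq_one.1 hg
    rw [← map_pow, PresentedGroup.mk_eq_one_iff] at hm'
    exact PresentedGroup.mk_eq_one_iff.2 (torsion_free hR w m hm hm')

end Pool.Agent.S01498
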