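import Pool.Statements.S02264
import Pool.Agent.Lib.MP_90343c_al.Aff
import Pool.Agent.Lib.MP_90343c_al.PSL

set_option autoImplicit false
open Pool Pool.MP_90343c_al

namespace Pool.Agent.S02264

open Pool.Agent.Lib.MP_90343c_al

/-- The four relators with `σ = 2`, `τ = 1`. -/
def rels (p : ℕ) : Set (FreeGroup (Fin 2)) :=
  {FreeGroup.of (0 : Fin 2) ^ p,
    (FreeGroup.of (0 : Fin 2) * FreeGroup.of (1 : Fin 2)) ^ 3,
    FreeGroup.of (1 : Fin 2) ^ 2,
    (FreeGroup.of (0 : Fin 2) ^ (2 : ℤ) * FreeGroup.of (1 : Fin 2) *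
      FreeGroup.of (0 : Fin 2) ^ (1 : ℤ) * FreeGroup.of (1 : Fin 2)) ^ 2}

/-- The fourth relator follows from the second and the third one when `σ = 2`, `τ = 1`. -/
theorem fourth {G : Type*} [Group G] (a b : G) (h3 : (a * b) ^ 3 = 1) (h2 : b ^ 2 = 1) :
    (a ^ (2 : ℤ) * b * a ^ (1 : ℤ) * b) ^ 2 = 1 := by
  have hb : b * b = 1 := by rw [← pow_two]; exact h2
  have hb' : b⁻¹ = b := inv_eq_of_mul_eq_one_left hb
  have h4 : b * a * b = a⁻¹ * b * a⁻¹ := by
    have h5 : a * b * (a * b) * (a * b) = 1 := by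
      rw [← h3, pow_succ, pow_two]
    calc b * a * b = a⁻¹ * (a * b * (a * b) * (a * b)) * (b⁻¹ * a⁻¹) := by group
      _ = a⁻¹ * b * a⁻¹ := by rw [h5, hb']; group
  have h6 : a ^ (2 : ℤ) * b * a ^ (1 : ℤ) * b = a * b * a⁻¹ := by
    calc a ^ (2 : ℤ) * b * a ^ (1 : ℤ) * b = a ^ (2 : ℤ) * (b * a * b) := by group
      _ = a * b * a⁻¹ := by rw [h4]; group
  rw [h6, pow_two]
  calc a * b * a⁻¹ * (a * b * a⁻¹) = a * (b * b) * a⁻¹ := by group
    _ = 1 := by rw [hb]; group

/-- Any assignment satisfying the first three relations satisfies all of them. -/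
theorem rels_ok {G : Type*} [Group G] (p : ℕ) (a b : G) (h1 : a ^ p = 1)
    (h3 : (a * b) ^ 3 = 1) (h2 : b ^ 2 = 1) :
    ∀ r ∈ rels p, FreeGroup.lift (![a, b]) r = 1 := by
  intro r hr
  simp only [rels, Set.mem_insert_iff, Set.mem_singleton_iff] at hr
  rcases hr with rfl | rfl | rfl | rfl
  · simpa using h1
  · simpa using h3
  · simpa using h2
  · have := fourth a b h3 h2
    simpa using this

theorem infinite_ab (p : ℕ) [Fact p.Prime] (hp : 6 ≤ p)
    (φ : PresentedGroup (rels p) →* PSL p) (h0 : φ (PresentedGroup.of 0) = aa p)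
    (h1 : φ (PresentedGroup.of 1) = bb p) :
    Function.Surjective φ ∧ ¬ Finite (Abelianization φ.ker) := by
  have hsurj : Function.Surjective φ := by
    rw [← MonoidHom.range_eq_top]
    apply closure_ab p
    · exact ⟨_, h0⟩
    · exact ⟨_, h1⟩
  refine ⟨hsurj, fun hfin => ?_⟩
  have : Finite (PSL p) := inferInstance
  obtain ⟨u, w, e1, e2, e3, hne⟩ := exists_pair (aa p) (bb p) p hp (aa_order p) (bb_order p)
    (ab_order p)
  let A : Aff (PSL p) := ⟨u, aa p⟩
  let B : Aff (PSL p) := ⟨w, bb p⟩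
  have hA : A ^ p = 1 := by
    apply Aff.ext'
    · rw [Aff.pow_v]; exact e1
    · rw [Aff.pow_g]
      show aa p ^ p = 1
      have := pow_orderOf_eq_one (aa p)
      rwa [aa_order] at this
  have hB : B ^ 2 = 1 := by
    apply Aff.ext'
    · rw [Aff.pow_v]; exact e2
    · rw [Aff.pow_g]
      show bb p ^ 2 = 1
      have := pow_orderOf_eq_one (bb p)
      rwa [bb_order] at this
  have hAB : (A * B) ^ 3 = 1 := by
    apply Aff.ext'
    · rw [Aff.pow_v]; exact e3
    · rw [Aff.pow_g]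
      show (aa p * bb p) ^ 3 = 1
      have := pow_orderOf_eq_one (aa p * bb p)
      rwa [ab_order] at this
  let Φ : PresentedGroup (rels p) →* Aff (PSL p) :=
    PresentedGroup.toGroup (rels_ok p A B hA hAB hB)
  have hΦ0 : Φ (PresentedGroup.of 0) = A := by
    simp [Φ]
  have hΦ1 : Φ (PresentedGroup.of 1) = B := by
    simp [Φ]
  have hcomp : (Aff.proj : Aff (PSL p) →* PSL p).comp Φ = φ := by
    apply PresentedGroup.ext
    intro x
    fin_cases x
    · show (Φ (PresentedGroup.of 0)).g = φ (PresentedGroup.of 0)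
      rw [hΦ0, h0]
    · show (Φ (PresentedGroup.of 1)).g = φ (PresentedGroup.of 1)
      rw [hΦ1, h1]
  obtain ⟨v, hv⟩ := coboundary_of_finite φ hsurj hfin Φ (fun x => by rw [← hcomp]; rfl)
  apply hne
  refine ⟨v, ?_, ?_⟩
  · have := hv (PresentedGroup.of 0)
    rw [hΦ0, h0] at this
    exact this
  · have := hv (PresentedGroup.of 1)
    rw [hΦ1, h1] at this
    exact this

/-- The negation of the preceding statement: There are infinitely many primes p such that, for every σ prime to p (with σ·τ ≡ 2 mod p), every surjection from ⟨a,b ∣ a^p, (ab)^3, b^2, (a^σ b a^τ b)^2⟩ onto PSL_2(p) has a kernel with finite abelianization. -/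
theorem result :
    ¬ (Set.Infinite {p : ℕ | p.Prime ∧ ∀ σ τ : ℤ, ¬ ((p : ℤ) ∣ σ) → σ * τ ≡ 2 [ZMOD (p : ℤ)] →
      ∀ φ : PresentedGroup
          ({FreeGroup.of (0 : Fin 2) ^ p,
            (FreeGroup.of (0 : Fin 2) * FreeGroup.of (1 : Fin 2)) ^ 3,
            FreeGroup.of (1 : Fin 2) ^ 2,
            (FreeGroup.of (0 : Fin 2) ^ σ * FreeGroup.of (1 : Fin 2) *
              FreeGroup.of (0 : Fin 2) ^ τ * FreeGroup.of (1 : Fin 2)) ^ 2} :
            Set (FreeGroup (Fin 2))) →*
          (Matrix.SpecialLinearGroup (Fin 2) (ZMod p) ⧸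
            Subgroup.center (Matrix.SpecialLinearGroup (Fin 2) (ZMod p))),
        Function.Surjective φ → Finite (Abelianization φ.ker)}) := by
  intro hinf
  apply hinf
  apply Set.Finite.subset (Set.finite_Iio 6)
  rintro p ⟨hp, hall⟩
  by_contra hlt
  rw [Set.mem_Iio, not_lt] at hlt
  have : Fact p.Prime := ⟨hp⟩
  have hσ : ¬ ((p : ℤ) ∣ 2) := by
    intro h
    have h2 : p ∣ 2 := by exact_mod_cast h
    have := Nat.le_of_dvd (by norm_num) h2
    omega
  have ha : aa p ^ p = 1 := by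
    have := pow_orderOf_eq_one (aa p)
    rwa [aa_order] at this
  have hb : bb p ^ 2 = 1 := by
    have := pow_orderOf_eq_one (bb p)
    rwa [bb_order] at this
  have hab : (aa p * bb p) ^ 3 = 1 := by
    have := pow_orderOf_eq_one (aa p * bb p)
    rwa [ab_order] at this
  let φ : PresentedGroup (rels p) →* PSL p :=
    PresentedGroup.toGroup (rels_ok p (aa p) (bb p) ha hab hb)
  have hφ := infinite_ab p hlt φ (by simp [φ]) (by simp [φ])
  exact hφ.2 (hall 2 1 hσ (by norm_num) φ hφ.1)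

end Pool.Agent.S02264
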