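import Pool.Statements.S02972
import Pool.Agent.Lib.MP_c23930_al.AQ.Final

set_option autoImplicit false
open Pointwise
open Pool Pool.MP_c23930_al

namespace Pool.Agent.S02972

/-- The negation of the preceding statement: If two finitely generated groups of exponential growth are quasi-isometric and the first has a uniform c>1 with every word ball of radius n (any finite generating set) of size at least c^n, then so does the second. -/
theorem result :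
    ¬ (∀ (G H : Type) [Group G] [Group H],
      (∃ S : Finset G, Subgroup.closure (S : Set G) = ⊤ ∧
        ∃ c : ℝ, 1 < c ∧ ∀ n : ℕ,
          c ^ n ≤ (Set.ncard (((S : Set G) ∪ (S : Set G)⁻¹ ∪ {1}) ^ n) : ℝ)) →
      (∃ T : Finset H, Subgroup.closure (T : Set H) = ⊤ ∧
        ∃ c : ℝ, 1 < c ∧ ∀ n : ℕ,
          c ^ n ≤ (Set.ncard (((T : Set H) ∪ (T : Set H)⁻¹ ∪ {1}) ^ n) : ℝ)) →
      (∃ (S : Finset G) (T : Finset H),
        Subgroup.closure (S : Set G) = ⊤ ∧ Subgroup.closure (T : Set H) = ⊤ ∧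
        ∃ (f : G → H) (K C : ℕ),
          (∀ g g' : G, ∀ n : ℕ,
            g⁻¹ * g' ∈ ((S : Set G) ∪ (S : Set G)⁻¹ ∪ {1}) ^ n →
            (f g)⁻¹ * f g' ∈ ((T : Set H) ∪ (T : Set H)⁻¹ ∪ {1}) ^ (K * n + C)) ∧
          (∀ g g' : G, ∀ n : ℕ,
            (f g)⁻¹ * f g' ∈ ((T : Set H) ∪ (T : Set H)⁻¹ ∪ {1}) ^ n →
            g⁻¹ * g' ∈ ((S : Set G) ∪ (S : Set G)⁻¹ ∪ {1}) ^ (K * n + C)) ∧
          (∀ h : H, ∃ g : G,
            (f g)⁻¹ * h ∈ ((T : Set H) ∪ (T : Set H)⁻¹ ∪ {1}) ^ C)) →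
      (∃ c : ℝ, 1 < c ∧ ∀ S : Finset G, Subgroup.closure (S : Set G) = ⊤ →
        ∀ n : ℕ, c ^ n ≤ (Set.ncard (((S : Set G) ∪ (S : Set G)⁻¹ ∪ {1}) ^ n) : ℝ)) →
      (∃ c : ℝ, 1 < c ∧ ∀ T : Finset H, Subgroup.closure (T : Set H) = ⊤ →
        ∀ n : ℕ, c ^ n ≤ (Set.ncard (((T : Set H) ∪ (T : Set H)⁻¹ ∪ {1}) ^ n) : ℝ))) :=
  Pool.Agent.Lib.MP_c23930_al.AQ.final_aq

end Pool.Agent.S02972
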