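import Pool.Statements.S03543
import Mathlib
import Pool.Agent.Lib.MP_f431e1_al.Block

set_option autoImplicit false
open Pool Pool.MP_f431e1_al

namespace Pool.Agent.S03543

open Pool.Agent.Lib.MP_f431e1_al

/-- Every group with an automatic structure (regular language of words mapping onto G, with synchronous finite automata for equality and right multiplication by each generator) also has one whose language is prefix-closed with exactly one word per element. -/
theorem result :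
  ∀ (G : Type) [Group G],
    (∃ (A : Type) (_ : Finite A) (f : A → G) (L : Language A),
      (∃ (σ : Type) (_ : Finite σ) (M : DFA A σ), M.accepts = L) ∧
      (∀ g : G, ∃ w ∈ L, (w.map f).prod = g) ∧
      (∃ (σ : Type) (_ : Finite σ) (M : DFA (Option A × Option A) σ),
        ∀ p : List (Option A × Option A), p ∈ M.accepts ↔
          ∃ u ∈ L, ∃ v ∈ L, (u.map f).prod = (v.map f).prod ∧
            p = List.ofFn (fun i : Fin (max u.length v.length) => (u[(i : ℕ)]?, v[(i : ℕ)]?))) ∧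
      (∀ a : A, ∃ (σ : Type) (_ : Finite σ) (M : DFA (Option A × Option A) σ),
        ∀ p : List (Option A × Option A), p ∈ M.accepts ↔
          ∃ u ∈ L, ∃ v ∈ L, (u.map f).prod * f a = (v.map f).prod ∧
            p = List.ofFn (fun i : Fin (max u.length v.length) => (u[(i : ℕ)]?, v[(i : ℕ)]?)))) →
    (∃ (A : Type) (_ : Finite A) (f : A → G) (L : Language A),
      (∃ (σ : Type) (_ : Finite σ) (M : DFA A σ), M.accepts = L) ∧
      (∀ g : G, ∃ w ∈ L, (w.map f).prod = g) ∧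
      (∃ (σ : Type) (_ : Finite σ) (M : DFA (Option A × Option A) σ),
        ∀ p : List (Option A × Option A), p ∈ M.accepts ↔
          ∃ u ∈ L, ∃ v ∈ L, (u.map f).prod = (v.map f).prod ∧
            p = List.ofFn (fun i : Fin (max u.length v.length) => (u[(i : ℕ)]?, v[(i : ℕ)]?))) ∧
      (∀ a : A, ∃ (σ : Type) (_ : Finite σ) (M : DFA (Option A × Option A) σ),
        ∀ p : List (Option A × Option A), p ∈ M.accepts ↔
          ∃ u ∈ L, ∃ v ∈ L, (u.map f).prod * f a = (v.map f).prod ∧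
            p = List.ofFn (fun i : Fin (max u.length v.length) => (u[(i : ℕ)]?, v[(i : ℕ)]?))) ∧
      (∀ u v : List A, u ++ v ∈ L → u ∈ L) ∧
      (∀ u ∈ L, ∀ v ∈ L, (u.map f).prod = (v.map f).prod → u = v)) := by
  intro G _ h
  obtain ⟨A, hA, f, L, ⟨σ, hσ, M, hM⟩, hs, ⟨σ1, hσ1, M1, hM1⟩, hgen⟩ := h
  have hreg : L.IsRegular := ⟨σ, Fintype.ofFinite σ, M, hM⟩
  have hs' : ∀ g : G, ∃ w ∈ L, ev f w = g := hs
  have hM1' : ∀ p, p ∈ M1.accepts ↔ ∃ u ∈ L, ∃ v ∈ L, ev f u = ev f v ∧ p = padr u v := by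
    intro p
    rw [hM1 p]
    simp only [padr_eq_ofFn]
    rfl
  obtain ⟨L1, hL1, hsub, hs1, hu1⟩ := exists_unique_sub hreg hs' M1 hM1'
  have hft1 : ∀ g : G, FT f L1 g := by
    apply FT.all hu1 hs1
    intro a
    obtain ⟨τ, hτ, N, hN⟩ := hgen a
    have hN' : ∀ p, p ∈ N.accepts ↔ ∃ u ∈ L, ∃ v ∈ L, ev f u * f a = ev f v ∧ p = padr u v := by
      intro p
      rw [hN p]
      simp only [padr_eq_ofFn]
      rfl
    exact (FT.of_dfa N hN').mono hsub
  obtain ⟨L2, hL2, hnil, hs2, hu2, hft2⟩ := exists_nil_mem hL1 hs1 hu1 hft1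
  obtain ⟨B, hB, f', L', ⟨τ, hτ, M', hM'⟩, hs3, hft3, hpre, hu3⟩ :=
    exists_prefix_closed hL2 hnil hs2 hu2 hft2
  refine ⟨B, hB, f', L', ⟨τ, hτ, M', hM'⟩, hs3, ?_, ?_, hpre, hu3⟩
  · obtain ⟨τ', hτ', N, hN⟩ := dfa_of_FT M' hM' (hft3 1)
    refine ⟨τ', hτ', N, ?_⟩
    intro p
    rw [hN p]
    simp only [padr_eq_ofFn, mul_one]
    rfl
  · intro b
    obtain ⟨τ', hτ', N, hN⟩ := dfa_of_FT M' hM' (hft3 (f' b))
    refine ⟨τ', hτ', N, ?_⟩
    intro p
    rw [hN p]
    simp only [padr_eq_ofFn]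
    rfl

end Pool.Agent.S03543
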