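import Pool.Statements.S03864
import Pool.Agent.Lib.MP_125cfc_an.Final

set_option autoImplicit false
open Filter Topology
open Pool Pool.MP_125cfc_an

namespace Pool.Agent.S03864

/-- The negation of the preceding statement: For any dimension, number of bodies and positive masses in Newtonian gravity, the map sending bi-hyperbolic initial data with zero center of mass and (mass-)orthogonal position and velocity to its past/future limit shapes is a local C^∞ diffeomorphism onto the equal-norm, centered limit-shape set. -/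
theorem result :
    ¬ (∀ (d N : ℕ) (m : Fin N → ℝ), (∀ i, 0 < m i) →
  ∀ (Ω : Set (Fin N → EuclideanSpace ℝ (Fin d))),
    (∀ x, x ∈ Ω ↔ ∀ i j, i ≠ j → x i ≠ x j) →
  ∀ (H : Set ((Fin N → EuclideanSpace ℝ (Fin d)) × (Fin N → EuclideanSpace ℝ (Fin d)))),
    (∀ p, p ∈ H ↔ ∃ γ γ' : ℝ → (Fin N → EuclideanSpace ℝ (Fin d)),
       ∃ aₘ aₚ : Fin N → EuclideanSpace ℝ (Fin d),
       γ 0 = p.1 ∧ γ' 0 = p.2 ∧ (∀ t, γ t ∈ Ω) ∧ (∀ t, HasDerivAt γ (γ' t) t) ∧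
       (∀ t, HasDerivAt γ' (fun i => ∑ j ∈ Finset.univ.erase i,
            (m j / ‖γ t j - γ t i‖ ^ 3) • (γ t j - γ t i)) t) ∧
       aₘ ∈ Ω ∧ aₚ ∈ Ω ∧
       Tendsto (fun t : ℝ => t⁻¹ • γ t) atTop (𝓝 aₚ) ∧
       Tendsto (fun t : ℝ => |t|⁻¹ • γ t) atBot (𝓝 aₘ)) →
  ∀ (S : (Fin N → EuclideanSpace ℝ (Fin d)) × (Fin N → EuclideanSpace ℝ (Fin d)) →
        (Fin N → EuclideanSpace ℝ (Fin d)) × (Fin N → EuclideanSpace ℝ (Fin d))),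
    (∀ (γ γ' : ℝ → (Fin N → EuclideanSpace ℝ (Fin d))) (aₘ aₚ : Fin N → EuclideanSpace ℝ (Fin d)),
       (∀ t, γ t ∈ Ω) → (∀ t, HasDerivAt γ (γ' t) t) →
       (∀ t, HasDerivAt γ' (fun i => ∑ j ∈ Finset.univ.erase i,
            (m j / ‖γ t j - γ t i‖ ^ 3) • (γ t j - γ t i)) t) →
       aₘ ∈ Ω → aₚ ∈ Ω →
       Tendsto (fun t : ℝ => t⁻¹ • γ t) atTop (𝓝 aₚ) →
       Tendsto (fun t : ℝ => |t|⁻¹ • γ t) atBot (𝓝 aₘ) →
       S (γ 0, γ' 0) = (aₘ, aₚ)) →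
  ∀ (P₀ : Set ((Fin N → EuclideanSpace ℝ (Fin d)) × (Fin N → EuclideanSpace ℝ (Fin d)))),
    (∀ p, p ∈ P₀ ↔ p ∈ H ∧ ∑ i, m i • p.1 i = 0 ∧ ∑ i, m i • p.2 i = 0 ∧
        ∑ i, m i * inner ℝ (p.1 i) (p.2 i) = 0) →
  ∀ (S₀ : Set ((Fin N → EuclideanSpace ℝ (Fin d)) × (Fin N → EuclideanSpace ℝ (Fin d)))),
    (∀ q, q ∈ S₀ ↔ q.1 ∈ Ω ∧ q.2 ∈ Ω ∧ ∑ i, m i • q.1 i = 0 ∧ ∑ i, m i • q.2 i = 0 ∧
        ∑ i, m i * ‖q.1 i‖ ^ 2 = ∑ i, m i * ‖q.2 i‖ ^ 2) →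
  ∀ p ∈ P₀, ∃ (U W : Set ((Fin N → EuclideanSpace ℝ (Fin d)) × (Fin N → EuclideanSpace ℝ (Fin d)))),
    IsOpen U ∧ IsOpen W ∧ p ∈ U ∧ S p ∈ W ∧
    ∃ T : (Fin N → EuclideanSpace ℝ (Fin d)) × (Fin N → EuclideanSpace ℝ (Fin d)) →
          (Fin N → EuclideanSpace ℝ (Fin d)) × (Fin N → EuclideanSpace ℝ (Fin d)),
      (∀ q ∈ P₀ ∩ U, S q ∈ S₀ ∩ W ∧ T (S q) = q) ∧
      (∀ r ∈ S₀ ∩ W, T r ∈ P₀ ∩ U ∧ S (T r) = r) ∧
      ContDiffOn ℝ ((⊤ : ℕ∞) : WithTop ℕ∞) S (P₀ ∩ U) ∧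
      ContDiffOn ℝ ((⊤ : ℕ∞) : WithTop ℕ∞) T (S₀ ∩ W)) := by
  intro H
  classical
  set a : EuclideanSpace ℝ (Fin 3) := EuclideanSpace.single 0 1 with ha
  set b : EuclideanSpace ℝ (Fin 3) := EuclideanSpace.single 1 1 with hb
  set e : EuclideanSpace ℝ (Fin 3) := EuclideanSpace.single 2 1 with he
  have fr : Pool.Agent.Lib.MP_125cfc_an.Frame a b e := by
    refine ⟨?_, ?_, ?_, ?_, ?_, ?_⟩ <;> simp [ha, hb, he, EuclideanSpace.inner_single_left]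
  obtain ⟨M, m, k, p, C, ε₀, Y, W, A₀, hε₀, hY, hsol⟩ :=
    Pool.Agent.Lib.MP_125cfc_an.reduced fr
  obtain ⟨S, hS⟩ := Pool.Agent.Lib.MP_125cfc_an.exists_shape_map
    (E := EuclideanSpace ℝ (Fin 3)) (![m, M, m] : Fin 3 → ℝ)
  have hMm : M + 2 * m ≠ 0 := by
    have h1 := p.hM
    have h2 := p.hm
    positivity
  have hmm : ∀ i, 0 < (![m, M, m] : Fin 3 → ℝ) i := by
    intro i
    have h1 := p.hM
    have h2 := p.hm
    fin_cases i <;> simp [h1, h2]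
  obtain ⟨U, Wn, hU, -, hpU, -, T, hT1, -, -, hT⟩ := H 3 3 ![m, M, m] hmm
    {x | ∀ i j, i ≠ j → x i ≠ x j} (fun _ => Iff.rfl)
    _ (fun _ => Iff.rfl) S
    (by
      intro γ γ' am ap h1 h2 h3 h4 h5 h6 h7
      exact hS γ γ' am ap ⟨h1, h2, h3, h4, h5, h6, h7⟩)
    _ (fun _ => Iff.rfl) _ (fun _ => Iff.rfl)
    (Pool.Agent.Lib.MP_125cfc_an.qq a b e M m 0)
    (by
      have hb := hY.isBi fr p
      refine ⟨⟨_, _, _, _, ?_, ?_, hb.ne, hb.d, hb.d', hb.nem, hb.nep, hb.top, hb.bot⟩, ?_, ?_, ?_⟩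
      · simp only [hY.x0]; rfl
      · simp only [hY.v0]; rfl
      · exact Pool.Agent.Lib.MP_125cfc_an.BB_center e hMm _
      · exact Pool.Agent.Lib.MP_125cfc_an.BB_center e hMm _
      · exact Pool.Agent.Lib.MP_125cfc_an.BB_inner fr M m 0)
  refine Pool.Agent.Lib.MP_125cfc_an.final_core fr p hε₀ hY hsol hS ?_ hU hpU hT1
    (hT.differentiableOn (by simp))
  intro ε X V A hg
  have hb := hg.isBi fr p
  refine ⟨⟨_, _, _, _, ?_, ?_, hb.ne, hb.d, hb.d', hb.nem, hb.nep, hb.top, hb.bot⟩, ?_, ?_, ?_⟩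
  · simp only [hg.x0]; rfl
  · simp only [hg.v0]; rfl
  · exact Pool.Agent.Lib.MP_125cfc_an.BB_center e hMm _
  · exact Pool.Agent.Lib.MP_125cfc_an.BB_center e hMm _
  · exact Pool.Agent.Lib.MP_125cfc_an.BB_inner fr M m ε

end Pool.Agent.S03864
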