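import Pool.Statements.S03938
import Pool.Agent.Lib.MP_17c3bf_an.Final

set_option autoImplicit false
open Pool Pool.MP_17c3bf_an

namespace Pool.Agent.S03938

/-- The negation of the preceding statement: In every infinite-dimensional real Banach space, any set K such that every point of the space has exactly one farthest point in K must consist of a single point. -/
theorem result :
    ¬ (∀ (X : Type) [NormedAddCommGroup X] [NormedSpace ℝ X] [CompleteSpace X],
      ¬ FiniteDimensional ℝ X →
      ∀ K : Set X,
        (∀ x : X, ∃! y : X, y ∈ K ∧ ∀ z ∈ K, dist x z ≤ dist x y) →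
        ∃ a : X, K = {a}) := by
  intro h
  exact Pool.Agent.MP17c3bf.DD.range_not_singleton
    (h Pool.Agent.MP17c3bf.DD.X Pool.Agent.MP17c3bf.DD.not_finiteDimensional
      (Set.range Pool.Agent.MP17c3bf.DD.e) Pool.Agent.MP17c3bf.main)

end Pool.Agent.S03938
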