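import Pool.Statements.S03992
import Pool.Agent.Lib.MP_1d263a_an.PA.Main
import Pool.Agent.Lib.MP_1d263a_an.PI.Main
import Pool.Agent.Lib.MP_1d263a_an.PI.Fin

set_option autoImplicit false
open MeasureTheory
open scoped ENNReal
open Pool Pool.MP_1d263a_an

namespace Pool.Agent.S03992

/-- The negation of the preceding statement: There is a metric space X quasisymmetric to the standard Sierpinski carpet and a p ≥ 1 such that X with p-dimensional Hausdorff measure is Ahlfors p-regular and supports a weak (1,p)-Poincaré inequality for integrable functions and their upper gradients. -/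
theorem result :
    ¬ (∀ S : Set (ℝ × ℝ),
    S = {q : ℝ × ℝ | q.1 ∈ Set.Icc (0:ℝ) 1 ∧ q.2 ∈ Set.Icc (0:ℝ) 1 ∧
      ∀ n a b : ℕ, ¬ (((3 * (a:ℝ) + 1) / 3 ^ (n+1) < q.1 ∧ q.1 < (3 * (a:ℝ) + 2) / 3 ^ (n+1)) ∧
        ((3 * (b:ℝ) + 1) / 3 ^ (n+1) < q.2 ∧ q.2 < (3 * (b:ℝ) + 2) / 3 ^ (n+1)))} →
    ∃ (X : Type) (_ : MetricSpace X) (_ : MeasurableSpace X) (_ : BorelSpace X)
      (f : S ≃ X) (p : ℝ), 1 ≤ p ∧
      (∃ η : ℝ → ℝ, η 0 = 0 ∧ StrictMonoOn η (Set.Ici 0) ∧ ContinuousOn η (Set.Ici 0) ∧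
        ∀ x a b : S, ∀ t : ℝ, 0 ≤ t → dist x a ≤ t * dist x b →
          dist (f x) (f a) ≤ η t * dist (f x) (f b)) ∧
      (∃ C : ℝ, 1 ≤ C ∧ ∀ x : X, ∀ r : ℝ, 0 < r → r ≤ Metric.diam (Set.univ : Set X) →
        ENNReal.ofReal (C⁻¹ * r ^ p) ≤ MeasureTheory.Measure.hausdorffMeasure p (Metric.closedBall x r) ∧
        MeasureTheory.Measure.hausdorffMeasure p (Metric.closedBall x r) ≤ ENNReal.ofReal (C * r ^ p)) ∧
      (∃ C L : ℝ, 0 < C ∧ 1 ≤ L ∧
        ∀ u : X → ℝ, Integrable u (MeasureTheory.Measure.hausdorffMeasure p) →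
        ∀ g : X → ℝ≥0∞, Measurable g →
        (∀ γ : ℝ → X, ∀ l : ℝ, 0 ≤ l → LipschitzOnWith 1 γ (Set.Icc 0 l) →
            ENNReal.ofReal |u (γ l) - u (γ 0)| ≤ ∫⁻ t in Set.Icc 0 l, g (γ t)) →
        ∀ x : X, ∀ r : ℝ, 0 < r →
          (MeasureTheory.Measure.hausdorffMeasure p (Metric.ball x r))⁻¹ *
            ∫⁻ y in Metric.ball x r,
              ENNReal.ofReal |u y - ⨍ z in Metric.ball x r, u z ∂(MeasureTheory.Measure.hausdorffMeasure p)|
              ∂(MeasureTheory.Measure.hausdorffMeasure p)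
          ≤ ENNReal.ofReal (C * r) *
            ((MeasureTheory.Measure.hausdorffMeasure p (Metric.ball x (L * r)))⁻¹ *
              ∫⁻ y in Metric.ball x (L * r), g y ^ p ∂(MeasureTheory.Measure.hausdorffMeasure p)) ^ (1 / p))) := by
  exact Pool.Agent.Lib.MP_1d263a_an.PA.main_of Pool.Agent.Lib.MP_1d263a_an.PA.partA
    (fun _ hp D => CarpetPI.no_dat hp D)

end Pool.Agent.S03992
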