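import Pool.Statements.S04384
import Pool.Agent.Lib.MP_3a7ba1_an.Final

set_option autoImplicit false
open Pool Pool.MP_3a7ba1_an

namespace Pool.Agent.S04384

/-- The negation of the preceding statement: For every strictly convex L on R^3 and bounded open Ω, any Lipschitz u whose integral of L(grad u) over Ω is not decreased by any compactly supported Lipschitz perturbation inside Ω is continuously differentiable on Ω. -/
theorem result :
    ¬ (∀ (L : EuclideanSpace ℝ (Fin 3) → ℝ), StrictConvexOn ℝ Set.univ L →
    ∀ (Ω : Set (EuclideanSpace ℝ (Fin 3))), IsOpen Ω → Bornology.IsBounded Ω →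
    ∀ (u : EuclideanSpace ℝ (Fin 3) → ℝ) (K : NNReal), LipschitzWith K u →
    (∀ (φ : EuclideanSpace ℝ (Fin 3) → ℝ) (M : NNReal), LipschitzWith M φ →
        HasCompactSupport φ → tsupport φ ⊆ Ω →
        ∫ x in Ω, L (gradient u x) ≤ ∫ x in Ω, L (gradient (u + φ) x)) →
    ContDiffOn ℝ 1 u Ω) := by
  exact Pool.Agent.Lib.MP_3a7ba1_an.main

end Pool.Agent.S04384
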