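import Pool.Statements.S05239
import Pool.Agent.Lib.MP_830418_an.Full.Final

set_option autoImplicit false
open Pool Pool.MP_830418_an

namespace Pool.Agent.S05239

/-- For every p in (1,∞) with p ≠ 2 and every group with no invariant mean, some f : G → ℂ convolves ℓ^p(G) boundedly (on finitely supported inputs) but f*(h) = conj f(h⁻¹) does not. -/
theorem result :
    ∀ p : ℝ, 1 < p → p ≠ 2 → ∀ (G : Type) [Group G],
      (¬ ∃ m : Set G → ℝ, (∀ A, 0 ≤ m A) ∧ m Set.univ = 1 ∧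
          (∀ A B : Set G, Disjoint A B → m (A ∪ B) = m A + m B) ∧
          ∀ (g : G) (A : Set G), m ((fun x => g * x) '' A) = m A) →
      ∃ f : G → ℂ,
        (∃ C : ℝ, ∀ ξ : G →₀ ℂ,
          Summable (fun g : G => ‖∑ k ∈ ξ.support, f (g * k⁻¹) * ξ k‖ ^ p) ∧
          ∑' g : G, ‖∑ k ∈ ξ.support, f (g * k⁻¹) * ξ k‖ ^ p
            ≤ C * ∑ k ∈ ξ.support, ‖ξ k‖ ^ p) ∧
        ¬ (∃ C : ℝ, ∀ ξ : G →₀ ℂ,
          Summable (fun g : G =>
            ‖∑ k ∈ ξ.support, starRingEnd ℂ (f ((g * k⁻¹)⁻¹)) * ξ k‖ ^ p) ∧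
          ∑' g : G, ‖∑ k ∈ ξ.support, starRingEnd ℂ (f ((g * k⁻¹)⁻¹)) * ξ k‖ ^ p
            ≤ C * ∑ k ∈ ξ.support, ‖ξ k‖ ^ p) := by
  exact Pool.Agent.PI.t_frozen

end Pool.Agent.S05239
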