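import Pool.Statements.S05354
import Pool.Agent.Lib.MP_8d5788_an.P.Choose
import Pool.Agent.Lib.MP_8d5788_an.P.Count
import Pool.Agent.Lib.MP_8d5788_an.P.Det
import Pool.Agent.Lib.MP_8d5788_an.P.Dist
import Pool.Agent.Lib.MP_8d5788_an.P.Ep
import Pool.Agent.Lib.MP_8d5788_an.P.Equi
import Pool.Agent.Lib.MP_8d5788_an.P.Good
import Pool.Agent.Lib.MP_8d5788_an.P.Haar
import Pool.Agent.Lib.MP_8d5788_an.P.Inv
import Pool.Agent.Lib.MP_8d5788_an.P.Konig
import Pool.Agent.Lib.MP_8d5788_an.P.LDinj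
import Pool.Agent.Lib.MP_8d5788_an.P.LDpiece
import Pool.Agent.Lib.MP_8d5788_an.P.LDprob
import Pool.Agent.Lib.MP_8d5788_an.P.LDwin
import Pool.Agent.Lib.MP_8d5788_an.P.Lam2cyl
import Pool.Agent.Lib.MP_8d5788_an.P.Lamcyl
import Pool.Agent.Lib.MP_8d5788_an.P.Lamsh
import Pool.Agent.Lib.MP_8d5788_an.P.Law
import Pool.Agent.Lib.MP_8d5788_an.P.Lay
import Pool.Agent.Lib.MP_8d5788_an.P.Laygap
import Pool.Agent.Lib.MP_8d5788_an.P.Laynest
import Pool.Agent.Lib.MP_8d5788_an.P.Laynorun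
import Pool.Agent.Lib.MP_8d5788_an.P.Level
import Pool.Agent.Lib.MP_8d5788_an.P.Loccont
import Pool.Agent.Lib.MP_8d5788_an.P.Main
import Pool.Agent.Lib.MP_8d5788_an.P.Many
import Pool.Agent.Lib.MP_8d5788_an.P.Meas
import Pool.Agent.Lib.MP_8d5788_an.P.Mucont
import Pool.Agent.Lib.MP_8d5788_an.P.Mush
import Pool.Agent.Lib.MP_8d5788_an.P.Nec
import Pool.Agent.Lib.MP_8d5788_an.P.Nest
import Pool.Agent.Lib.MP_8d5788_an.P.Phicont
import Pool.Agent.Lib.MP_8d5788_an.P.Phish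
import Pool.Agent.Lib.MP_8d5788_an.P.Qfree
import Pool.Agent.Lib.MP_8d5788_an.P.Qsel
import Pool.Agent.Lib.MP_8d5788_an.P.Quniq
import Pool.Agent.Lib.MP_8d5788_an.P.Rec
import Pool.Agent.Lib.MP_8d5788_an.P.Rulsum
import Pool.Agent.Lib.MP_8d5788_an.P.Same
import Pool.Agent.Lib.MP_8d5788_an.P.Sepb
import Pool.Agent.Lib.MP_8d5788_an.P.Sfree
import Pool.Agent.Lib.MP_8d5788_an.P.Sloc
import Pool.Agent.Lib.MP_8d5788_an.P.Suff
import Pool.Agent.Lib.MP_8d5788_an.P.Suniq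
import Pool.Agent.Lib.MP_8d5788_an.P.Sys
import Pool.Agent.Lib.MP_8d5788_an.P.Tinvcont
import Pool.Agent.Lib.MP_8d5788_an.P.Tinvsh
import Pool.Agent.Lib.MP_8d5788_an.P.Tloc
import Pool.Agent.Lib.MP_8d5788_an.P.Tp
import Pool.Agent.Lib.MP_8d5788_an.P.Transp
import Pool.Agent.Lib.MP_8d5788_an.P.Tree
import Pool.Agent.Lib.MP_8d5788_an.P.Vsmall
import Pool.Agent.Lib.MP_8d5788_an.P.Zip

set_option autoImplicit false
open MeasureTheory
open Pool Pool.MP_8d5788_an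

namespace Pool.Agent.S05354

/-- The negation of the preceding statement: For all finite alphabets A, B and every probability vector p on B, the set of shift-invariant measures on A^ℤ that are finitarily isomorphic to the i.i.d. process p^ℤ is Borel in the weak* topology. Finitary means inverse equivariant maps continuous on full-measure sets. -/
theorem result :
    ¬ (∀ (a b : ℕ) (p : ProbabilityMeasure (Fin b)),
    MeasurableSet[borel (ProbabilityMeasure (ℤ → Fin a))]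
      {μ : ProbabilityMeasure (ℤ → Fin a) |
        Measure.map (fun x : ℤ → Fin a => fun n => x (n + 1)) (μ : Measure (ℤ → Fin a))
            = (μ : Measure (ℤ → Fin a)) ∧
        ∃ (X₀ : Set (ℤ → Fin a)) (Y₀ : Set (ℤ → Fin b))
          (φ : (ℤ → Fin a) → (ℤ → Fin b)) (ψ : (ℤ → Fin b) → (ℤ → Fin a)),
          (μ : Measure (ℤ → Fin a)) X₀ᶜ = 0 ∧
          Measure.infinitePi (fun _ : ℤ => (p : Measure (Fin b))) Y₀ᶜ = 0 ∧
          Set.MapsTo φ X₀ Y₀ ∧ Set.MapsTo ψ Y₀ X₀ ∧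
          Set.LeftInvOn ψ φ X₀ ∧ Set.LeftInvOn φ ψ Y₀ ∧
          ContinuousOn φ X₀ ∧ ContinuousOn ψ Y₀ ∧
          (∀ x ∈ X₀, φ (fun n => x (n + 1)) = fun n => φ x (n + 1)) ∧
          (∀ y ∈ Y₀, ψ (fun n => y (n + 1)) = fun n => ψ y (n + 1)) ∧
          Measure.map φ (μ : Measure (ℤ → Fin a))
            = Measure.infinitePi (fun _ : ℤ => (p : Measure (Fin b))) ∧
          Measure.map ψ (Measure.infinitePi (fun _ : ℤ => (p : Measure (Fin b))))
            = (μ : Measure (ℤ → Fin a))}) := by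
  have same := Pool.Agent.Lib.MP_8d5788_an.pf_same
  have nest := Pool.Agent.Lib.MP_8d5788_an.pf_nest
  have qfree := Pool.Agent.Lib.MP_8d5788_an.pf_qfree nest
  have sfree := Pool.Agent.Lib.MP_8d5788_an.pf_sfree nest
  have quniq := Pool.Agent.Lib.MP_8d5788_an.pf_quniq same qfree
  have suniq := Pool.Agent.Lib.MP_8d5788_an.pf_suniq same sfree
  have tp := Pool.Agent.Lib.MP_8d5788_an.pf_tp quniq
  have ep := Pool.Agent.Lib.MP_8d5788_an.pf_ep suniq
  have inv := Pool.Agent.Lib.MP_8d5788_an.pf_inv ep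
  have phish := Pool.Agent.Lib.MP_8d5788_an.pf_phish tp ep
  have tinvsh := Pool.Agent.Lib.MP_8d5788_an.pf_tinvsh quniq
  have meas := Pool.Agent.Lib.MP_8d5788_an.pf_meas tp ep quniq
  have law := Pool.Agent.Lib.MP_8d5788_an.pf_law Pool.Agent.Lib.MP_8d5788_an.pf_haar tp ep quniq meas
  have mush := Pool.Agent.Lib.MP_8d5788_an.pf_mush meas phish Pool.Agent.Lib.MP_8d5788_an.pf_lamsh
  have mucont := Pool.Agent.Lib.MP_8d5788_an.pf_mucont meas tp ep quniq suniq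
  have phicont := Pool.Agent.Lib.MP_8d5788_an.pf_phicont Pool.Agent.Lib.MP_8d5788_an.pf_tloc Pool.Agent.Lib.MP_8d5788_an.pf_sloc tp ep Pool.Agent.Lib.MP_8d5788_an.pf_loccont
  have tinvcont := Pool.Agent.Lib.MP_8d5788_an.pf_tinvcont Pool.Agent.Lib.MP_8d5788_an.pf_tloc quniq Pool.Agent.Lib.MP_8d5788_an.pf_loccont
  have good := Pool.Agent.Lib.MP_8d5788_an.pf_good Pool.Agent.Lib.MP_8d5788_an.pf_lamcyl Pool.Agent.Lib.MP_8d5788_an.pf_lamsh
  have suff := Pool.Agent.Lib.MP_8d5788_an.pf_suff law Pool.Agent.Lib.MP_8d5788_an.pf_zip meas inv good phicont tinvcont phish tinvsh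
  have LDwin := Pool.Agent.Lib.MP_8d5788_an.pf_LDwin tp ep
  have LDprob := Pool.Agent.Lib.MP_8d5788_an.pf_LDprob LDwin Pool.Agent.Lib.MP_8d5788_an.pf_lamcyl meas
  have LDpiece := Pool.Agent.Lib.MP_8d5788_an.pf_LDpiece tp ep same nest qfree sfree quniq
  have LDinj := Pool.Agent.Lib.MP_8d5788_an.pf_LDinj tp ep
  have det := Pool.Agent.Lib.MP_8d5788_an.pf_det Pool.Agent.Lib.MP_8d5788_an.pf_lam2cyl meas
  have many := Pool.Agent.Lib.MP_8d5788_an.pf_many det LDpiece Pool.Agent.Lib.MP_8d5788_an.pf_lamcyl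
  have nec := Pool.Agent.Lib.MP_8d5788_an.pf_nec many Pool.Agent.Lib.MP_8d5788_an.pf_equi LDprob LDinj meas
  have laynorun := Pool.Agent.Lib.MP_8d5788_an.pf_laynorun Pool.Agent.Lib.MP_8d5788_an.pf_lay
  have laynest := Pool.Agent.Lib.MP_8d5788_an.pf_laynest Pool.Agent.Lib.MP_8d5788_an.pf_lay
  have laygap := Pool.Agent.Lib.MP_8d5788_an.pf_laygap Pool.Agent.Lib.MP_8d5788_an.pf_lay
  have sepb := Pool.Agent.Lib.MP_8d5788_an.pf_sepb Pool.Agent.Lib.MP_8d5788_an.pf_rulsum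
  have level := Pool.Agent.Lib.MP_8d5788_an.pf_level Pool.Agent.Lib.MP_8d5788_an.pf_count Pool.Agent.Lib.MP_8d5788_an.pf_lay laynorun laynest laygap Pool.Agent.Lib.MP_8d5788_an.pf_dist Pool.Agent.Lib.MP_8d5788_an.pf_choose sepb Pool.Agent.Lib.MP_8d5788_an.pf_qsel
  have sys := Pool.Agent.Lib.MP_8d5788_an.pf_sys level Pool.Agent.Lib.MP_8d5788_an.pf_rec
  exact Pool.Agent.Lib.MP_8d5788_an.main Pool.Agent.Lib.MP_8d5788_an.pf_transp suff nec Pool.Agent.Lib.MP_8d5788_an.pf_vsmall mush mucont Pool.Agent.Lib.MP_8d5788_an.pf_tree Pool.Agent.Lib.MP_8d5788_an.pf_konig sys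

end Pool.Agent.S05354
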