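import Pool.Statements.S05422
import Pool.Agent.Lib.MP_92fb3f_an.Fail

set_option autoImplicit false
open Pool Pool.MP_92fb3f_an

namespace Pool.Agent.S05422

/-- The negation of the preceding statement: For every real Banach space X: if every separable subspace of the bidual X** lies in a separable complemented subspace of X**, then every separable subspace of X lies in a separable complemented subspace of X. -/
theorem result :
    ¬ (∀ (X : Type) [NormedAddCommGroup X] [NormedSpace ℝ X] [CompleteSpace X],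
    (∀ Y : Submodule ℝ ((X →L[ℝ] ℝ) →L[ℝ] ℝ),
      TopologicalSpace.IsSeparable (Y : Set ((X →L[ℝ] ℝ) →L[ℝ] ℝ)) →
      ∃ Z : Submodule ℝ ((X →L[ℝ] ℝ) →L[ℝ] ℝ), Y ≤ Z ∧
        IsClosed (Z : Set ((X →L[ℝ] ℝ) →L[ℝ] ℝ)) ∧
        TopologicalSpace.IsSeparable (Z : Set ((X →L[ℝ] ℝ) →L[ℝ] ℝ)) ∧
        ∃ P : ((X →L[ℝ] ℝ) →L[ℝ] ℝ) →L[ℝ] ((X →L[ℝ] ℝ) →L[ℝ] ℝ),
          (∀ x, P x ∈ Z) ∧ ∀ z ∈ Z, P z = z) →
    (∀ Y : Submodule ℝ X, TopologicalSpace.IsSeparable (Y : Set X) →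
      ∃ Z : Submodule ℝ X, Y ≤ Z ∧ IsClosed (Z : Set X) ∧
        TopologicalSpace.IsSeparable (Z : Set X) ∧
        ∃ P : X →L[ℝ] X, (∀ x, P x ∈ Z) ∧ ∀ z ∈ Z, P z = z)) := by
  intro h
  exact Pool.Agent.Lib.MP_92fb3f_an.X0_not_SCP
    (h (Pool.Agent.Lib.MP_92fb3f_an.XX Pool.Agent.Lib.MP_92fb3f_an.MR)
      Pool.Agent.Lib.MP_92fb3f_an.X0_bidual_SCP)

end Pool.Agent.S05422
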