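import Pool.Statements.S05860
import Pool.Agent.Lib.MP_b2d7d1_an.Final

set_option autoImplicit false
open Filter
open Pool Pool.MP_b2d7d1_an

namespace Pool.Agent.S05860

/-- The negation of the preceding statement: If f is meromorphic on the plane, of finite order, and has at least three distinct deficient values in ℂ∪{∞}, then for every σ>1 the ratio T(σr)/T(r) of Nevanlinna characteristics stays bounded for all large r. -/
theorem result :
    ¬ (∀ f : ℂ → ℂ, MeromorphicOn f Set.univ →
      (∃ ρ : ℝ, ∀ᶠ r in atTop, ValueDistribution.characteristic f ⊤ r ≤ r ^ ρ) →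
      (∃ S : Finset (WithTop ℂ), 2 < S.card ∧
        ∀ a ∈ S, ∃ ε : ℝ, 0 < ε ∧
          ∀ᶠ r in atTop, ε * ValueDistribution.characteristic f ⊤ r ≤
            ValueDistribution.proximity f a r) →
      ∀ σ : ℝ, 1 < σ → ∃ C : ℝ, ∀ᶠ r in atTop,
        ValueDistribution.characteristic f ⊤ (σ * r) ≤
          C * ValueDistribution.characteristic f ⊤ r) :=
  Pool.Agent.Lib.MP_b2d7d1_an.main

end Pool.Agent.S05860
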