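import Pool.Statements.S06903
import Pool.Agent.Lib.MP_026281_co.Sq

set_option autoImplicit false
open Asymptotics
open Pool Pool.MP_026281_co

namespace Pool.Agent.S06903

/-- There is a function f with f(n)=o(n^2) such that for every finite graph G, the square of G can be properly coloured from any lists of size at least f(χ(G^2)), i.e. the list chromatic number of G^2 is at most f(χ(G^2)). -/
theorem result :
    ∃ f : ℕ → ℕ, (fun n : ℕ => (f n : ℝ)) =o[Filter.atTop] (fun n : ℕ => (n : ℝ) ^ 2) ∧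
      ∀ (V : Type) [Fintype V] (G : SimpleGraph V) (L : V → Finset ℕ),
        (∀ v, f ((SimpleGraph.fromRel
              (fun u w => G.Adj u w ∨ ∃ x, G.Adj u x ∧ G.Adj x w)).chromaticNumber.toNat)
            ≤ (L v).card) →
        ∃ c : V → ℕ, (∀ v, c v ∈ L v) ∧
          ∀ u w, (SimpleGraph.fromRel
              (fun a b => G.Adj a b ∨ ∃ x, G.Adj a x ∧ G.Adj x b)).Adj u w → c u ≠ c w := by
  refine ⟨fun n => sInf (Pool.Agent.SQ.goodT n), ?_, ?_⟩
  · rw [isLittleO_iff]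
    intro c hc
    have hε : 0 < min (c / 2) 1 := lt_min (by linarith) one_pos
    obtain ⟨k0, hk0⟩ := Pool.Agent.SQ.goodT_small hε (min_le_right _ _)
    filter_upwards [Filter.eventually_ge_atTop k0, Filter.eventually_ge_atTop ⌈2 / c⌉₊,
      Filter.eventually_ge_atTop 1] with n hn1 hn2 hn3
    have h1 : sInf (Pool.Agent.SQ.goodT n) ≤ ⌈min (c / 2) 1 * (n : ℝ) ^ 2⌉₊ := Nat.sInf_le (hk0 n hn1)
    have h2 : ((sInf (Pool.Agent.SQ.goodT n) : ℕ) : ℝ) ≤ min (c / 2) 1 * (n : ℝ) ^ 2 + 1 := by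
      calc ((sInf (Pool.Agent.SQ.goodT n) : ℕ) : ℝ) ≤ (⌈min (c / 2) 1 * (n : ℝ) ^ 2⌉₊ : ℝ) := by
            exact_mod_cast h1
        _ ≤ min (c / 2) 1 * (n : ℝ) ^ 2 + 1 := (Nat.ceil_lt_add_one (by positivity)).le
    have hn3' : (1 : ℝ) ≤ n := by exact_mod_cast hn3
    have h3 : 2 / c ≤ (n : ℝ) := le_trans (Nat.le_ceil _) (by exact_mod_cast hn2)
    have h4 : 2 / c ≤ (n : ℝ) ^ 2 := by nlinarith
    have h5 : 2 ≤ c * (n : ℝ) ^ 2 := by
      rw [div_le_iff₀ hc] at h4
      linarith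
    have h6 : min (c / 2) 1 * (n : ℝ) ^ 2 ≤ c / 2 * (n : ℝ) ^ 2 :=
      mul_le_mul_of_nonneg_right (min_le_left _ _) (by positivity)
    rw [Real.norm_of_nonneg (by positivity), Real.norm_of_nonneg (by positivity)]
    linarith
  · intro V _ G L hL
    exact Nat.sInf_mem (Pool.Agent.SQ.goodT_nonempty
      ((Pool.Agent.SQ.sqG G).chromaticNumber.toNat)) V G L rfl hL

end Pool.Agent.S06903
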