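import Pool.Statements.S07161
import Pool.Agent.Lib.MP_0cde83_co.Final

set_option autoImplicit false
open Pool Pool.MP_0cde83_co

namespace Pool.Agent.S07161

/-- In every finite bridgeless cubic multigraph, if deleting an edge set S leaves a 3-edge-colourable graph, then some spanning subgraph with all degrees even has at most 2∣S∣ components with an odd number of vertices. -/
theorem result :
    ∀ (V E : Type) [Fintype V] [Fintype E] (s t : E → V),
      (∀ e : E, s e ≠ t e) →
      (∀ v : V, Set.ncard {e : E | s e = v ∨ t e = v} = 3) →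
      (∀ e : E, (SimpleGraph.fromRel
          (fun x y : V => ∃ f : E, f ≠ e ∧ s f = x ∧ t f = y)).Reachable (s e) (t e)) →
      ∀ S : Finset E,
        (∃ c : E → Fin 3, ∀ e f : E, e ∉ S → f ∉ S → e ≠ f →
          (s e = s f ∨ s e = t f ∨ t e = s f ∨ t e = t f) → c e ≠ c f) →
        ∃ F : Set E,
          (∀ v : V, Even (Set.ncard {e : E | e ∈ F ∧ (s e = v ∨ t e = v)})) ∧
          Set.ncard {C : (SimpleGraph.fromRel
              (fun x y : V => ∃ f : E, f ∈ F ∧ s f = x ∧ t f = y)).ConnectedComponent |
            Odd (SimpleGraph.ConnectedComponent.supp C).ncard} ≤ 2 * S.card := by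
  intro V E _ _ s t hne h3 _ S hc
  exact WeakOdd.weak_oddness_le s t hne h3 S hc

end Pool.Agent.S07161
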