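import Pool.Statements.S07377
import Pool.Agent.Lib.MP_17bf10_co.Traj
import Pool.Agent.Lib.MP_17bf10_co.Two

set_option autoImplicit false
open Pool Pool.MP_17bf10_co

namespace Pool.Agent.S07377

/-- In dimension d≥3, for an intersection of non-redundant unit balls with centres pairwise at distance ≤1, every closed generalized billiard trajectory on the boundary of minimal total length among all such trajectories has exactly 2 vertices. -/
theorem result :
  ∀ d : ℕ, 3 ≤ d → ∀ S : Finset (EuclideanSpace ℝ (Fin d)), S.Nonempty →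
    (∀ c ∈ S, ∀ c' ∈ S, dist c c' ≤ 1) →
    (∀ c ∈ S, ∃ x : EuclideanSpace ℝ (Fin d),
        (∀ c' ∈ S, c' ≠ c → dist x c' ≤ 1) ∧ 1 < dist x c) →
    ∀ n : ℕ, ∀ p : Fin n → EuclideanSpace ℝ (Fin d),
      (2 ≤ n ∧ ∀ i : Fin n,
        p i ∈ frontier (⋂ c ∈ S, Metric.closedBall c (1 : ℝ)) ∧
        p i ≠ p (finRotate n i) ∧
        ((dist (p (finRotate n i)) (p i))⁻¹ • (p (finRotate n i) - p i)
          + (dist (p ((finRotate n).symm i)) (p i))⁻¹ • (p ((finRotate n).symm i) - p i)) ≠ 0 ∧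
        ∀ x ∈ (⋂ c ∈ S, Metric.closedBall c (1 : ℝ)),
          0 ≤ inner ℝ ((dist (p (finRotate n i)) (p i))⁻¹ • (p (finRotate n i) - p i)
                + (dist (p ((finRotate n).symm i)) (p i))⁻¹ • (p ((finRotate n).symm i) - p i))
               (x - p i)) →
      (∀ m : ℕ, ∀ q : Fin m → EuclideanSpace ℝ (Fin d),
        (2 ≤ m ∧ ∀ j : Fin m,
          q j ∈ frontier (⋂ c ∈ S, Metric.closedBall c (1 : ℝ)) ∧
          q j ≠ q (finRotate m j) ∧
          ((dist (q (finRotate m j)) (q j))⁻¹ • (q (finRotate m j) - q j)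
            + (dist (q ((finRotate m).symm j)) (q j))⁻¹ • (q ((finRotate m).symm j) - q j)) ≠ 0 ∧
          ∀ x ∈ (⋂ c ∈ S, Metric.closedBall c (1 : ℝ)),
            0 ≤ inner ℝ ((dist (q (finRotate m j)) (q j))⁻¹ • (q (finRotate m j) - q j)
                  + (dist (q ((finRotate m).symm j)) (q j))⁻¹ • (q ((finRotate m).symm j) - q j))
                 (x - q j)) →
        ∑ i, dist (p i) (p (finRotate n i)) ≤ ∑ j, dist (q j) (q (finRotate m j))) →
      n = 2 := by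
  intro d hd S hS hS1 _ n p hp hmin
  have hS1' : ∀ c ∈ S, ∀ c' ∈ S, ‖c - c'‖ ≤ 1 := fun c hc c' hc' => by
    rw [← dist_eq_norm]; exact hS1 c hc c' hc'
  have hne0 : Nonempty (Fin d) := ⟨⟨0, by omega⟩⟩
  have hnt : Nontrivial (EuclideanSpace ℝ (Fin d)) := inferInstance
  obtain ⟨δ, hδ0, hδ1, hδ, q, hq, hqlen⟩ := Pool.Agent.Lib.MP_17bf10_co.exists_two hS hS1'
  obtain ⟨N, hN0, hN1, hN2, hN3, hN4⟩ := Pool.Agent.Lib.MP_17bf10_co.exists_N' hS hS1'
  have hN : Pool.Agent.Lib.MP_17bf10_co.NData S N := ⟨hN0, hN1, hN2, hN3, hN4⟩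
  by_contra hne
  have hn3 : 3 ≤ n := by
    have := hp.1
    omega
  have h1 := Pool.Agent.Lib.MP_17bf10_co.frozen_bound hN hδ0 hδ1 hδ hn3 p hp.2
  have h2 := hmin 2 q ⟨le_rfl, hq⟩
  linarith

end Pool.Agent.S07377
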