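import Pool.Statements.S07561
import Pool.Agent.Lib.MP_1f15ea_co.Final

set_option autoImplicit false
open Pool Pool.MP_1f15ea_co

namespace Pool.Agent.S07561

/-- For every k ≥ 4, every connected finite graph with total domination number k whose γ_t drops on deleting any vertex not adjacent to a leaf has diameter at most ⌊(5k−7)/3⌋, and some such graph attains that diameter. -/
theorem result : ∀ k : ℕ, 4 ≤ k →
    (∀ (V : Type) [Fintype V] (G : SimpleGraph V), G.Connected →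
      (∃ S : Finset V, S.card = k ∧ ∀ u : V, ∃ w ∈ S, G.Adj u w) →
      (∀ S : Finset V, (∀ u : V, ∃ w ∈ S, G.Adj u w) → k ≤ S.card) →
      (∀ v : V, (¬ ∃ u : V, G.Adj v u ∧ ∀ w : V, G.Adj u w → w = v) →
        ∃ S : Finset V, v ∉ S ∧ S.card < k ∧ ∀ u : V, u ≠ v → ∃ w ∈ S, G.Adj u w) →
      G.diam ≤ (5 * k - 7) / 3) ∧
    (∃ (n : ℕ) (G : SimpleGraph (Fin n)), G.Connected ∧
      (∃ S : Finset (Fin n), S.card = k ∧ ∀ u : Fin n, ∃ w ∈ S, G.Adj u w) ∧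
      (∀ S : Finset (Fin n), (∀ u : Fin n, ∃ w ∈ S, G.Adj u w) → k ≤ S.card) ∧
      (∀ v : Fin n, (¬ ∃ u : Fin n, G.Adj v u ∧ ∀ w : Fin n, G.Adj u w → w = v) →
        ∃ S : Finset (Fin n), v ∉ S ∧ S.card < k ∧ ∀ u : Fin n, u ≠ v → ∃ w ∈ S, G.Adj u w) ∧
      G.diam = (5 * k - 7) / 3) := by
  intro k hk
  refine ⟨?_, ?_⟩
  · intro V _ G hconn hTD hmin hcrit
    obtain ⟨S, _, hS⟩ := hTD
    exact Pool.Agent.Lib.MP_1f15ea_co.diam_le k hk G hconn ⟨S, hS⟩ hmin hcrit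
  · obtain ⟨n, G, f, hc, hf, hy⟩ := Pool.Agent.Lib.MP_1f15ea_co.exists_critical k hk
    exact ⟨n, G, Pool.Agent.Lib.MP_1f15ea_co.final_of hk hc hf hy⟩

end Pool.Agent.S07561
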