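import Pool.Statements.S08110
import Pool.Agent.Lib.MP_375da3_co.MeasureAlgebra

set_option autoImplicit false
universe u
open Pool Pool.MP_375da3_co

namespace Pool.Agent.S08110

/-- The negation of the preceding statement: For every distributive lattice T: if T order-embeds into a product of chains indexed by ι, then T embeds as a sublattice into some product of chains indexed by ι; that is, algebraic dimension equals order dimension. -/
theorem result :
    ¬ (∀ (T : Type u) [DistribLattice T] (ι : Type u) (C : ι → Type u)
      [∀ i, LinearOrder (C i)],
      Nonempty (T ↪o ((i : ι) → C i)) →
        ∃ (D : ι → Type u) (_ : ∀ i, LinearOrder (D i)),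
          ∃ f : LatticeHom T ((i : ι) → D i), Function.Injective f) :=
  Pool.Agent.Lib.MP_375da3_co.main

end Pool.Agent.S08110
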