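import Pool.Statements.S08120
import Pool.Agent.Lib.MP_377e48_co.CE.WrapC
import Pool.Agent.Lib.MP_377e48_co.CE.Main

set_option autoImplicit false
open Pool Pool.MP_377e48_co

namespace Pool.Agent.S08120

/-- The negation of the preceding statement: For every d ≥ 1, if finitely many closed balls with distinct centres in ℝ^d pairwise intersect and their tangency graph on the centres admits no nonzero stress, then that tangency graph is (d+1)-colorable. -/
theorem result :
    ¬ (∀ (d : ℕ), 1 ≤ d →
      ∀ (n : ℕ) (c : Fin n → EuclideanSpace ℝ (Fin d)) (ρ : Fin n → ℝ),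
        Function.Injective c →
        (∀ i, 0 < ρ i) →
        (∀ i j, dist (c i) (c j) ≤ ρ i + ρ j) →
        (∀ w : Fin n → Fin n → ℝ,
          (∀ i j, w i j = w j i) →
          (∀ j, ∑ i ∈ Finset.univ.filter (fun i => dist (c i) (c j) = ρ i + ρ j),
              w i j • (c i - c j) = 0) →
          ∀ i j, dist (c i) (c j) = ρ i + ρ j → w i j = 0) →
        (SimpleGraph.fromRel (fun i j : Fin n => dist (c i) (c j) = ρ i + ρ j)).Colorable (d + 1)) := by
  exact Pool.Agent.MP377e48.CE.wrap_config Pool.Agent.MP_377e48_co.CE.adj (by decide +kernel)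
    (by decide +kernel) Pool.Agent.MP_377e48_co.CE.exists_config

end Pool.Agent.S08120
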