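import Pool.Statements.S08991
import Pool.Agent.Lib.MP_5c6f2e_co.Main

set_option autoImplicit false
open Pool Pool.MP_5c6f2e_co

namespace Pool.Agent.S08991

/-- For each k≥2 there is n0 so that every k-graph on n≥n0 vertices that is tightly connected, has no isolated vertex, and has every (k−1)-set lying in some edge extending in at least (1−1/k)n ways contains a tight Hamilton cycle. -/
theorem result :
    ∀ k : ℕ, 2 ≤ k → ∃ n₀ : ℕ, ∀ n : ℕ, n₀ ≤ n →
      ∀ H : Finset (Finset (Fin n)),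
        (∀ e ∈ H, e.card = k) →
        (∀ v : Fin n, ∃ e ∈ H, v ∈ e) →
        (∀ e ∈ H, ∀ f ∈ H,
          Relation.ReflTransGen
            (fun a b : Finset (Fin n) => a ∈ H ∧ b ∈ H ∧ (a ∩ b).card = k - 1) e f) →
        (∀ S : Finset (Fin n), S.card = k - 1 → (∃ e ∈ H, S ⊆ e) →
          (1 - 1 / (k : ℝ)) * (n : ℝ) ≤
            ((Finset.univ.filter (fun v : Fin n => v ∉ S ∧ insert v S ∈ H)).card : ℝ)) →
        ∃ g : ℕ → Fin n,
          (∀ i : ℕ, g (i + n) = g i) ∧
          (∀ i j : ℕ, i < n → j < n → g i = g j → i = j) ∧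
          (∀ i : ℕ, (Finset.range k).image (fun j => g (i + j)) ∈ H) := by
  intro k hk
  obtain ⟨n₀, h⟩ := Pool.Agent.THC.full k hk
  exact ⟨n₀, fun n hn H h1 h2 _ h4 => h n hn H h1 h2 h4⟩

end Pool.Agent.S08991

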