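-- Proof of the negation: n = 7, N = 84.
import Pool.Statements.S09056
import Pool.Agent.Lib.MP_5f100a_co.LowerBound

set_option autoImplicit false
open Pool Pool.MP_5f100a_co

namespace Pool.Agent.S09056

/-- The negation of the preceding statement: For all n and N with 2^(n-1) < N ≤ 2^n, some family of N subsets of an n-set has, for every s, at least as many s-element pairwise-intersecting subfamilies as any other family of N subsets. -/
theorem result :
    ¬ (∀ n N : ℕ, 2 ^ (n - 1) < N → N ≤ 2 ^ n →
      ∃ A : Finset (Finset (Fin n)), A.card = N ∧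
        ∀ s : ℕ, ∀ B : Finset (Finset (Fin n)), B.card = N →
          ((B.powersetCard s).filter
              (fun F => ∀ X ∈ F, ∀ Y ∈ F, X ≠ Y → ¬ Disjoint X Y)).card ≤
          ((A.powersetCard s).filter
              (fun F => ∀ X ∈ F, ∀ Y ∈ F, X ≠ Y → ¬ Disjoint X Y)).card) := by
  intro h
  obtain ⟨A, hA, hmax⟩ := h 7 84 (by norm_num) (by norm_num)
  refine Pool.Agent.Lib.MP_5f100a_co.core A hA ?_ ?_
  · convert hmax 2 Pool.Agent.Lib.MP_5f100a_co.A1 Pool.Agent.Lib.MP_5f100a_co.card_A1
  · convert hmax 64 Pool.Agent.Lib.MP_5f100a_co.A2 Pool.Agent.Lib.MP_5f100a_co.card_A2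

end Pool.Agent.S09056
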