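import Pool.Statements.S09250
import Pool.Agent.Lib.MP_66ff79_co.Final

set_option autoImplicit false
open SimpleGraph
open Pool Pool.MP_66ff79_co

namespace Pool.Agent.S09250

/-- The negation of the preceding statement: There is a family of line graphs of bipartite graphs such that a finite graph is strict quasi-parity (every non-clique induced subgraph has an even pair) iff it has no induced odd hole, no antihole on at least 5 vertices, and no member of the family. -/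
theorem result :
    ¬ (∃ F : Set (Σ n : ℕ, SimpleGraph (Fin n)),
      (∀ H ∈ F, ∃ m : ℕ, ∃ B : SimpleGraph (Fin m),
          B.Colorable 2 ∧ Nonempty (B.lineGraph ≃g H.2)) ∧
      ∀ (n : ℕ) (G : SimpleGraph (Fin n)),
        (∀ S : Set (Fin n), ¬ G.IsClique S →
            ∃ u ∈ S, ∃ v ∈ S, u ≠ v ∧
              ∀ (k : ℕ) (f : SimpleGraph.pathGraph (k + 1) ↪g G),
                (∀ i, f i ∈ S) → f 0 = u → f (Fin.last k) = v → Even k)
        ↔
        ((¬ ∃ m : ℕ, 5 ≤ m ∧ Odd m ∧ Nonempty (SimpleGraph.cycleGraph m ↪g G)) ∧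
         (¬ ∃ m : ℕ, 5 ≤ m ∧ Nonempty ((SimpleGraph.cycleGraph m)ᶜ ↪g G)) ∧
         (¬ ∃ H ∈ F, Nonempty (H.2 ↪g G)))) := by
  rintro ⟨F, hF, hE⟩
  refine Pool.Agent.Lib.MP_66ff79_co.GG_not_sqp ((hE 14 Pool.Agent.Lib.MP_66ff79_co.GG).mpr
    ⟨Pool.Agent.Lib.MP_66ff79_co.GG_no_odd_hole, Pool.Agent.Lib.MP_66ff79_co.GG_no_antihole, ?_⟩)
  rintro ⟨H, hH, ⟨φ⟩⟩
  obtain ⟨m, B, hB, ⟨e⟩⟩ := hF H hH
  have h1 := (hE H.1 H.2).mp
    (fun S hS => Pool.Agent.Lib.MP_66ff79_co.linegraph_even H.2 B hB e φ S hS)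
  exact h1.2.2 ⟨H, hH, ⟨RelEmbedding.refl _⟩⟩

end Pool.Agent.S09250
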