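import Pool.Statements.S09973
import Pool.Agent.Lib.MP_8a4e59_co.Close

set_option autoImplicit false
open Pool Pool.MP_8a4e59_co

namespace Pool.Agent.S09973

/-- For every C>0, for all large N, every subset A of {1..N} with at least N/(log N)^C elements contains x, x+(p-1), x+2(p-1) for some prime p. -/
theorem result :
    ∀ C : ℝ, 0 < C → ∃ N₀ : ℕ, ∀ N : ℕ, N₀ ≤ N → ∀ A : Finset ℕ,
      A ⊆ Finset.Icc 1 N →
      (N : ℝ) / Real.log (N : ℝ) ^ C ≤ (A.card : ℝ) →
      ∃ x p : ℕ, p.Prime ∧ x ∈ A ∧ x + (p - 1) ∈ A ∧ x + 2 * (p - 1) ∈ A := by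
  exact Pool.Agent.APP.final

end Pool.Agent.S09973
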