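import Pool.Statements.S10451
-- import your own Pool.Agent.* helpers here
import Pool.Agent.Lib.MP_9f84a9_co.Final

set_option autoImplicit false
open Classical
open Pool Pool.MP_9f84a9_co

namespace Pool.Agent.S10451

/-- For every nonempty finite planar point set X and every connected straight-edge network on a finite superset of X, some connected graph on X alone has total length at most 2/√3 times the network's length, i.e. L_MST ≤ (2/√3)·L_SMT. -/
theorem result :
    ∀ (X S : Finset (EuclideanSpace ℝ (Fin 2))), X.Nonempty → X ⊆ S →
      ∀ (G : SimpleGraph S), G.Connected →
        ∃ (H : SimpleGraph X), H.Connected ∧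
          Real.sqrt 3 / 2 *
              (∑ a : X, ∑ b : X,
                if H.Adj a b then
                  dist (a : EuclideanSpace ℝ (Fin 2)) (b : EuclideanSpace ℝ (Fin 2))
                else 0)
            ≤ ∑ a : S, ∑ b : S,
                if G.Adj a b then
                  dist (a : EuclideanSpace ℝ (Fin 2)) (b : EuclideanSpace ℝ (Fin 2))
                else 0 := by
  exact Pool.Agent.Lib.MP_9f84a9_co.t_red Pool.Agent.Lib.MP_9f84a9_co.thmY

end Pool.Agent.S10451
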