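import Pool.Statements.S10780

set_option autoImplicit false
open Pool Pool.MP_ae0825_co

namespace Pool.Agent.S10780

open SimpleGraph

/-- natural numbers with sum at most 13 over nine indices have product at most 16 -/
lemma prod_le (s : Fin 9 → ℕ) (h : ∑ i, s i = 13) : ∏ i, s i ≤ 16 := by
  by_cases h0 : ∃ i, s i = 0
  · obtain ⟨i, hi⟩ := h0
    rw [Finset.prod_eq_zero (Finset.mem_univ i) hi]
    norm_num
  · push Not at h0
    have h1 : ∀ i, s i ≤ 2 ^ (s i - 1) := by
      intro i
      have h2 : s i - 1 < 2 ^ (s i - 1) := Nat.lt_two_pow_self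
      have h3 := h0 i
      omega
    calc ∏ i, s i ≤ ∏ i, 2 ^ (s i - 1) := Finset.prod_le_prod' (fun i _ => h1 i)
      _ = 2 ^ (∑ i, (s i - 1)) := Finset.prod_pow_eq_pow_sum _ _ _
      _ = 16 := by
        have h4 : ∑ i, (s i - 1) + ∑ i : Fin 9, 1 = ∑ i, s i := by
          rw [← Finset.sum_add_distrib]
          refine Finset.sum_congr rfl (fun i _ => ?_)
          have h3 := h0 i
          omega
        have h5 : ∑ i, (s i - 1) = 4 := by
          rw [h] at h4
          simp at h4
          omega
        rw [h5]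
        norm_num

/-- the class of a vertex in the Turan graph -/
def cls {N : ℕ} (v : Fin (N * 9)) : Fin 9 := (finProdFinEquiv.symm v).2

lemma cls_val {N : ℕ} (v : Fin (N * 9)) : (cls v : ℕ) = v % 9 := by
  unfold cls
  rfl

lemma turan_colorings_le (N : ℕ) :
    Nat.card ((turanGraph (N * 9) 9).Coloring (Fin 13)) ≤ 9 ^ 13 * 16 ^ N := by
  classical
  have hadj : ∀ v w : Fin (N * 9), cls v ≠ cls w → (turanGraph (N * 9) 9).Adj v w := by
    intro v w h
    rw [turanGraph_adj, ← cls_val, ← cls_val]
    intro h'
    exact h (Fin.ext h')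
  let T : Type := (σ : Fin 13 → Fin 9) × (∀ v : Fin (N * 9), {k : Fin 13 // σ k = cls v})
  let sg : (turanGraph (N * 9) 9).Coloring (Fin 13) → (Fin 13 → Fin 9) := fun c k =>
    if h : ∃ v, c v = k then cls h.choose else 0
  have hsg : ∀ (c : (turanGraph (N * 9) 9).Coloring (Fin 13)) (v : Fin (N * 9)),
      sg c (c v) = cls v := by
    intro c v
    have hex : ∃ w, c w = c v := ⟨v, rfl⟩
    have h1 : sg c (c v) = cls hex.choose := by
      show (if h : ∃ w, c w = c v then cls h.choose else 0) = _
      rw [dif_pos hex]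
    rw [h1]
    by_contra hne
    exact c.valid (hadj _ _ hne) hex.choose_spec
  let F : (turanGraph (N * 9) 9).Coloring (Fin 13) → T := fun c => ⟨sg c, fun v => ⟨c v, hsg c v⟩⟩
  have hF : Function.Injective F := by
    have h1 : Function.Injective
        ((fun (x : T) (v : Fin (N * 9)) => ((x.2 v).1 : Fin 13)) ∘ F) := by
      intro c c' h
      exact DFunLike.coe_injective h
    exact h1.of_comp
  have hfin : Finite T := inferInstance
  refine (Nat.card_le_card_of_injective F hF).trans ?_
  show Nat.card ((σ : Fin 13 → Fin 9) × (∀ v : Fin (N * 9), {k : Fin 13 // σ k = cls v})) ≤ _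
  rw [Nat.card_sigma]
  have hone : ∀ σ : Fin 13 → Fin 9,
      Nat.card (∀ v : Fin (N * 9), {k : Fin 13 // σ k = cls v}) ≤ 16 ^ N := by
    intro σ
    rw [Nat.card_pi]
    set s : Fin 9 → ℕ := fun y => Nat.card {k : Fin 13 // σ k = y} with hs
    have h1 : ∏ v : Fin (N * 9), Nat.card {k : Fin 13 // σ k = cls v} = ∏ v : Fin (N * 9), s (cls v) :=
      rfl
    have h2 : ∏ v : Fin (N * 9), s (cls v) = ∏ x : Fin N × Fin 9, s x.2 := by
      unfold cls
      exact Equiv.prod_comp (finProdFinEquiv (m := N) (n := 9)).symm (fun x => s x.2)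
    rw [h1, h2, Fintype.prod_prod_type]
    simp only [Finset.prod_const, Finset.card_univ, Fintype.card_fin]
    refine Nat.pow_le_pow_left (prod_le s ?_) N
    have h3 : Nat.card ((y : Fin 9) × {k : Fin 13 // σ k = y}) = 13 := by
      rw [Nat.card_congr (Equiv.sigmaFiberEquiv σ)]
      simp
    rw [Nat.card_sigma] at h3
    exact h3
  calc ∑ σ : Fin 13 → Fin 9, Nat.card (∀ v : Fin (N * 9), {k : Fin 13 // σ k = cls v})
      ≤ ∑ _σ : Fin 13 → Fin 9, 16 ^ N := Finset.sum_le_sum (fun σ _ => hone σ)
    _ = 9 ^ 13 * 16 ^ N := by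
      rw [Finset.sum_const, Finset.card_univ, Fintype.card_fun]
      simp

/-- vertices of the competitor -/
abbrev W (a b : ℕ) : Type := (Fin 3 × Fin a) ⊕ (Fin 7 × Fin b)

/-- part of a vertex -/
def part {a b : ℕ} : W a b → Fin 3 ⊕ Fin 7 := Sum.map Prod.fst Prod.fst

/-- the competitor, a complete 10-partite graph -/
def K (n a b : ℕ) (e : Fin n ≃ W a b) : SimpleGraph (Fin n) where
  Adj v w := part (e v) ≠ part (e w)
  symm := ⟨fun _ _ h => h.symm⟩
  loopless := ⟨fun _ h => h rfl⟩

/-- colour of a vertex of the competitor given a choice of bits -/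
def col {a b : ℕ} (f : Fin 3 × Fin a → Bool) : W a b → Fin 13
  | Sum.inl x => ⟨2 * (x.1 : ℕ) + (if f x then 1 else 0), by
      have := x.1.2
      split_ifs <;> omega⟩
  | Sum.inr y => ⟨6 + (y.1 : ℕ), by
      have := y.1.2
      omega⟩

lemma col_part {a b : ℕ} (f : Fin 3 × Fin a → Bool) (x y : W a b) (h : col f x = col f y) :
    part x = part y := by
  rcases x with x | x <;> rcases y with y | y
  · have h1 := congrArg Fin.val h
    have h2 : 2 * (x.1 : ℕ) + (if f x then 1 else 0) = 2 * (y.1 : ℕ) + (if f y then 1 else 0) := h1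
    show Sum.inl x.1 = Sum.inl y.1
    congr 1
    apply Fin.ext
    split_ifs at h2 <;> omega
  · have h1 := congrArg Fin.val h
    have h2 : 2 * (x.1 : ℕ) + (if f x then 1 else 0) = 6 + (y.1 : ℕ) := h1
    have h3 := x.1.2
    split_ifs at h2 <;> omega
  · have h1 := congrArg Fin.val h
    have h2 : 6 + (x.1 : ℕ) = 2 * (y.1 : ℕ) + (if f y then 1 else 0) := h1
    have h3 := y.1.2
    split_ifs at h2 <;> omega
  · have h1 := congrArg Fin.val h
    have h2 : 6 + (x.1 : ℕ) = 6 + (y.1 : ℕ) := h1
    show Sum.inr x.1 = Sum.inr y.1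
    congr 1
    apply Fin.ext
    omega

lemma le_K_colorings (n a b : ℕ) (e : Fin n ≃ W a b) :
    2 ^ (3 * a) ≤ Nat.card ((K n a b e).Coloring (Fin 13)) := by
  have hfin : Finite ((K n a b e).Coloring (Fin 13)) :=
    Finite.of_injective (fun c : (K n a b e).Coloring (Fin 13) => (c : Fin n → Fin 13))
      DFunLike.coe_injective
  let F : (Fin 3 × Fin a → Bool) → (K n a b e).Coloring (Fin 13) := fun f =>
    Coloring.mk (fun v => col f (e v)) (fun {v w} h h' => h (col_part f _ _ h'))
  have hF : Function.Injective F := by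
    intro f g h
    funext x
    have h1 : (F f) (e.symm (Sum.inl x)) = (F g) (e.symm (Sum.inl x)) := by rw [h]
    have h2 : col f (e (e.symm (Sum.inl x))) = col g (e (e.symm (Sum.inl x))) := h1
    rw [Equiv.apply_symm_apply] at h2
    have h3 : 2 * (x.1 : ℕ) + (if f x then 1 else 0) = 2 * (x.1 : ℕ) + (if g x then 1 else 0) :=
      congrArg Fin.val h2
    rcases hf : f x <;> rcases hg : g x <;> simp [hf, hg] at h3 ⊢
  have h := Nat.card_le_card_of_injective F hF
  have hc : Nat.card (Fin 3 × Fin a → Bool) = 2 ^ (3 * a) := by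
    rw [Nat.card_eq_fintype_card, Fintype.card_fun]
    simp
  rw [← hc]
  exact h

lemma K_edges (n a b : ℕ) (e : Fin n ≃ W a b) :
    2 * Nat.card (K n a b e).edgeSet + (3 * a ^ 2 + 7 * b ^ 2) = n ^ 2 := by
  classical
  rw [Nat.card_eq_fintype_card, ← SimpleGraph.edgeFinset_card,
    ← SimpleGraph.sum_degrees_eq_twice_card_edges]
  have hdeg : ∀ v, (K n a b e).degree v
      + (Finset.univ.filter (fun w => part (e v) = part (e w))).card = n := by
    intro v
    have h1 : (K n a b e).neighborFinset v =
        Finset.univ.filter (fun w => ¬ part (e v) = part (e w)) := by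
      ext w
      rw [SimpleGraph.mem_neighborFinset, Finset.mem_filter]
      simp [K]
    rw [← SimpleGraph.card_neighborFinset_eq_degree, h1, Nat.add_comm,
      Finset.card_filter_add_card_filter_not]
    simp
  have hsum : ∑ v, (K n a b e).degree v
      + ∑ v, (Finset.univ.filter (fun w => part (e v) = part (e w))).card = n * n := by
    rw [← Finset.sum_add_distrib, Finset.sum_congr rfl (fun v _ => hdeg v)]
    simp
  have hcls : ∑ v, (Finset.univ.filter (fun w => part (e v) = part (e w))).card
      = 3 * a ^ 2 + 7 * b ^ 2 := by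
    have h1 : ∀ v, (Finset.univ.filter (fun w => part (e v) = part (e w))).card
        = (Finset.univ.filter (fun y : W a b => part (e v) = part y)).card := by
      intro v
      refine Finset.card_bij (fun w _ => e w) ?_ ?_ ?_
      · intro w hw
        simpa using hw
      · intro w _ w' _ h
        exact e.injective h
      · intro y hy
        exact ⟨e.symm y, by simpa using hy, by simp⟩
    rw [Finset.sum_congr rfl (fun v _ => h1 v)]
    rw [Equiv.sum_comp e
      (fun x : W a b => (Finset.univ.filter (fun y : W a b => part x = part y)).card)]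
    rw [Fintype.sum_sum_type]
    have h2 : ∀ x : Fin 3 × Fin a,
        (Finset.univ.filter (fun y : W a b => part (Sum.inl x : W a b) = part y)).card = a := by
      intro x
      have : (Finset.univ.filter (fun y : W a b => part (Sum.inl x : W a b) = part y))
          = Finset.univ.map ⟨fun t : Fin a => (Sum.inl (x.1, t) : W a b), by
            intro t t' h
            simpa using h⟩ := by
        ext y
        rw [Finset.mem_filter, Finset.mem_map]
        rcases y with ⟨i, t⟩ | ⟨j, t⟩
        · constructor
          · rintro ⟨-, h⟩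
            have h' : x.1 = i := Sum.inl.inj h
            exact ⟨t, Finset.mem_univ _, by rw [← h']; rfl⟩
          · rintro ⟨t', -, h⟩
            have h' : (x.1, t') = (i, t) := Sum.inl.inj h
            have h'' : x.1 = i := congrArg Prod.fst h'
            exact ⟨Finset.mem_univ _, congrArg Sum.inl h''⟩
        · simp [part]
      rw [this, Finset.card_map]
      simp
    have h3 : ∀ x : Fin 7 × Fin b,
        (Finset.univ.filter (fun y : W a b => part (Sum.inr x : W a b) = part y)).card = b := by
      intro x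
      have : (Finset.univ.filter (fun y : W a b => part (Sum.inr x : W a b) = part y))
          = Finset.univ.map ⟨fun t : Fin b => (Sum.inr (x.1, t) : W a b), by
            intro t t' h
            simpa using h⟩ := by
        ext y
        rw [Finset.mem_filter, Finset.mem_map]
        rcases y with ⟨i, t⟩ | ⟨j, t⟩
        · simp [part]
        · constructor
          · rintro ⟨-, h⟩
            have h' : x.1 = j := Sum.inr.inj h
            exact ⟨t, Finset.mem_univ _, by rw [← h']; rfl⟩
          · rintro ⟨t', -, h⟩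
            have h' : (x.1, t') = (j, t) := Sum.inr.inj h
            have h'' : x.1 = j := congrArg Prod.fst h'
            exact ⟨Finset.mem_univ _, congrArg Sum.inr h''⟩
      rw [this, Finset.card_map]
      simp
    rw [Finset.sum_congr rfl (fun x _ => h2 x), Finset.sum_congr rfl (fun x _ => h3 x)]
    simp
    ring
  rw [hcls] at hsum
  rw [hsum]
  ring

/-- the parameters: `n = 716 * 9 = 6444 = 3 * 972 + 7 * 504`. -/
lemma counterexample : ∃ G : SimpleGraph (Fin (716 * 9)),
    Nat.card G.edgeSet = Nat.card (turanGraph (716 * 9) 9).edgeSet ∧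
    Nat.card ((turanGraph (716 * 9) 9).Coloring (Fin 13)) < Nat.card (G.Coloring (Fin 13)) := by
  classical
  have hcard : Fintype.card (Fin (716 * 9)) = Fintype.card (W 972 504) := by
    simp
  let e : Fin (716 * 9) ≃ W 972 504 := Fintype.equivOfCardEq hcard
  have hKe := K_edges (716 * 9) 972 504 e
  have hKc := le_K_colorings (716 * 9) 972 504 e
  have hTe : 2 * 9 * Nat.card (turanGraph (716 * 9) 9).edgeSet ≤ (9 - 1) * (716 * 9) ^ 2 := by
    rw [Nat.card_eq_fintype_card, ← SimpleGraph.edgeFinset_card]
    exact mul_card_edgeFinset_turanGraph_le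
  have hle : Nat.card (turanGraph (716 * 9) 9).edgeSet ≤ (K (716 * 9) 972 504 e).edgeFinset.card := by
    rw [SimpleGraph.edgeFinset_card, ← Nat.card_eq_fintype_card]
    norm_num at hKe hTe ⊢
    omega
  obtain ⟨S, hS1, hS2⟩ := Finset.exists_subset_card_eq hle
  have hsub : ∀ x ∈ S, x ∈ (K (716 * 9) 972 504 e).edgeSet := by
    intro x hx
    have := hS1 hx
    rwa [SimpleGraph.mem_edgeFinset] at this
  refine ⟨SimpleGraph.fromEdgeSet (S : Set (Sym2 (Fin (716 * 9)))), ?_, ?_⟩
  · rw [SimpleGraph.edgeSet_fromEdgeSet]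
    rw [← hS2]
    have h1 : ∀ T : Set (Sym2 (Fin (716 * 9))), T = (S : Set (Sym2 (Fin (716 * 9)))) →
        Nat.card T = S.card := by
      intro T hT
      subst hT
      simp
    apply h1
    ext x
    constructor
    · intro hx
      exact hx.1
    · intro hx
      exact ⟨hx, SimpleGraph.not_isDiag_of_mem_edgeSet _ (hsub x hx)⟩
  · have hGle : SimpleGraph.fromEdgeSet (S : Set (Sym2 (Fin (716 * 9)))) ≤ K (716 * 9) 972 504 e := by
      intro v w h
      rw [SimpleGraph.fromEdgeSet_adj] at h
      exact hsub _ h.1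
    set G := SimpleGraph.fromEdgeSet (S : Set (Sym2 (Fin (716 * 9)))) with hG
    have hfin : Finite (G.Coloring (Fin 13)) :=
      Finite.of_injective (fun c : G.Coloring (Fin 13) => (c : Fin (716 * 9) → Fin 13))
        DFunLike.coe_injective
    let F : (K (716 * 9) 972 504 e).Coloring (Fin 13) → G.Coloring (Fin 13) := fun c =>
      Coloring.mk (fun v => c v) (fun {v w} h => c.valid (hGle h))
    have hF : Function.Injective F := by
      intro c c' h
      apply DFunLike.coe_injective
      funext v
      have h1 : (F c) v = (F c') v := by rw [h]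
      exact h1
    have h1 := Nat.card_le_card_of_injective F hF
    have h2 := turan_colorings_le 716
    have h3 : 9 ^ 13 * 16 ^ 716 < 2 ^ (3 * 972) := by
      have h4 : (16 : ℕ) ^ 716 = 2 ^ 2864 := by
        rw [show (16 : ℕ) = 2 ^ 4 by norm_num, ← pow_mul]
      have h5 : (2 : ℕ) ^ (3 * 972) = 2 ^ 52 * 2 ^ 2864 := by
        rw [← pow_add]
      have h6 : (9 : ℕ) ^ 13 < 2 ^ 52 := by norm_num
      rw [h4, h5]
      exact Nat.mul_lt_mul_of_pos_right h6 (by positivity)
    exact lt_of_le_of_lt h2 (lt_of_lt_of_le h3 (hKc.trans h1))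

/-- The negation of the preceding statement: For 2 ≤ r ≤ 9, q ≥ r, n ≥ r: any n-vertex graph with as many edges as the Turán graph T_r(n) but not isomorphic to it has strictly fewer proper q-colorings than T_r(n). -/
theorem result :
    ¬ (∀ r q n : ℕ, 2 ≤ r → r ≤ 9 → r ≤ q → r ≤ n →
      ∀ G : SimpleGraph (Fin n),
        Nat.card G.edgeSet = Nat.card (SimpleGraph.turanGraph n r).edgeSet →
        IsEmpty (G ≃g SimpleGraph.turanGraph n r) →
        Nat.card (G.Coloring (Fin q)) <
          Nat.card ((SimpleGraph.turanGraph n r).Coloring (Fin q))) := by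
  intro h
  obtain ⟨G, hG1, hG2⟩ := counterexample
  refine lt_asymm hG2 (h 9 13 (716 * 9) (by norm_num) (by norm_num) (by norm_num) (by norm_num)
    G hG1 ⟨fun φ => ?_⟩)
  have hfin : Finite ((turanGraph (716 * 9) 9).Coloring (Fin 13)) :=
    Finite.of_injective (fun c : (turanGraph (716 * 9) 9).Coloring (Fin 13) =>
      (c : Fin (716 * 9) → Fin 13)) DFunLike.coe_injective
  let F : G.Coloring (Fin 13) → (turanGraph (716 * 9) 9).Coloring (Fin 13) := fun c =>
    Coloring.mk (fun v => c (φ.symm v)) (fun {v w} hvw => c.valid (φ.symm.map_rel_iff.mpr hvw))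
  have hF : Function.Injective F := by
    intro c c' hcc
    apply DFunLike.coe_injective
    funext v
    have h1 : (F c) (φ v) = (F c') (φ v) := by rw [hcc]
    have h2 : c (φ.symm (φ v)) = c' (φ.symm (φ v)) := h1
    rwa [φ.symm_apply_apply] at h2
  exact absurd (Nat.card_le_card_of_injective F hF) (not_le.mpr hG2)

end Pool.Agent.S10780
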