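import Pool.Statements.S11120
import Pool.Agent.Lib.MP_bd3044_co.A
import Pool.Agent.Lib.MP_bd3044_co.B
import Pool.Agent.Lib.MP_bd3044_co.C
import Pool.Agent.Lib.MP_bd3044_co.D
import Pool.Agent.Lib.MP_bd3044_co.E
import Pool.Agent.Lib.MP_bd3044_co.F
import Pool.Agent.Lib.MP_bd3044_co.G
import Pool.Agent.Lib.MP_bd3044_co.H
import Pool.Agent.Lib.MP_bd3044_co.I
import Pool.Agent.Lib.MP_bd3044_co.J
import Pool.Agent.Lib.MP_bd3044_co.K

set_option autoImplicit false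
open Pool Pool.MP_bd3044_co

namespace Pool.Agent.S11120

/-- The negation of the preceding statement: For each k ≥ 3 there is c > 0 such that for all x ≥ 2 and every finite set P in [0,x)^k, some box of half-open intervals inside [0,x)^k has ∣number of points of P in it minus its volume∣ > c (log x)^(k−1). -/
theorem result :
    ¬ (∀ k : ℕ, 3 ≤ k → ∃ c : ℝ, 0 < c ∧
      ∀ x : ℝ, 2 ≤ x → ∀ P : Finset (Fin k → ℝ),
        (∀ p ∈ P, ∀ i, 0 ≤ p i ∧ p i < x) →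
        ∃ a b : Fin k → ℝ, (∀ i, 0 ≤ a i ∧ a i ≤ b i ∧ b i ≤ x) ∧
          c * Real.log x ^ (k - 1) <
            |((((P : Set (Fin k → ℝ)) ∩
                {p : Fin k → ℝ | ∀ i, a i ≤ p i ∧ p i < b i}).ncard : ℕ) : ℝ)
              - ∏ i, (b i - a i)|) := by
  have hG : Lib.MP_bd3044_co.S_G := Lib.MP_bd3044_co.t_G Lib.MP_bd3044_co.t_C
  have hE : Lib.MP_bd3044_co.S_E := Lib.MP_bd3044_co.t_E Lib.MP_bd3044_co.t_A Lib.MP_bd3044_co.t_B
    Lib.MP_bd3044_co.t_C (Lib.MP_bd3044_co.t_D Lib.MP_bd3044_co.t_C) hG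
  exact Lib.MP_bd3044_co.t_K (Lib.MP_bd3044_co.t_J (Lib.MP_bd3044_co.t_F hE) hG Lib.MP_bd3044_co.t_H
    Lib.MP_bd3044_co.t_I)

end Pool.Agent.S11120
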