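import Pool.Statements.S11325
import Pool.Agent.Lib.MP_c5a075_co.Final

set_option autoImplicit false
open Pool Pool.MP_c5a075_co

namespace Pool.Agent.S11325

/-- There is a constant k such that for every Delone set X of type (r,R) in 3-space, every closed ball of radius kR contains a point x of X all of whose 2R-cluster rotational symmetries about x have order 1, 2, 3, 4 or 6. -/
theorem result :
  ∃ k : ℝ, ∀ (X : Set (EuclideanSpace ℝ (Fin 3))) (r R : ℝ), 0 < r →
    (∀ x ∈ X, ∀ y ∈ X, x ≠ y → 2 * r ≤ dist x y) →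
    (∀ y : EuclideanSpace ℝ (Fin 3), ∃ x ∈ X, dist x y ≤ R) →
    ∀ y : EuclideanSpace ℝ (Fin 3), ∃ x ∈ X, dist x y ≤ k * R ∧
      ∀ A : EuclideanSpace ℝ (Fin 3) ≃ₗᵢ[ℝ] EuclideanSpace ℝ (Fin 3),
        (∀ v : EuclideanSpace ℝ (Fin 3), ‖v‖ ≤ 2 * R → (x + v ∈ X ↔ x + A v ∈ X)) →
        LinearMap.det A.toLinearIsometry.toLinearMap = 1 →
        orderOf A ∈ ({1, 2, 3, 4, 6} : Finset ℕ) := by
  exact Pool.Agent.Lib.MP_c5a075_co.main_statement

end Pool.Agent.S11325
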