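import Pool.Statements.S11745
import Pool.Agent.Lib.MP_d86530_co.Lev.Main
import Pool.Agent.Lib.MP_d86530_co.Lv.DC
import Pool.Agent.Lib.MP_d86530_co.Lv.DI
import Pool.Agent.Lib.MP_d86530_co.Lv.FD

set_option autoImplicit false
open Pool Pool.MP_d86530_co

namespace Pool.Agent.S11745

/-- Every finite graph with a planar embedding admits a circular vertex order such that no 4 edges, drawn as chords, are pairwise crossing (chords cross iff their endpoints strictly interleave). -/
theorem result :
    ∀ (V : Type) [Fintype V] (G : SimpleGraph V),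
      (∃ p : V → ℝ × ℝ, Function.Injective p ∧
        ∃ γ : V → V → (unitInterval → ℝ × ℝ),
          (∀ u v, G.Adj u v →
              Continuous (γ u v) ∧ Function.Injective (γ u v) ∧
              γ u v 0 = p u ∧ γ u v 1 = p v) ∧
          (∀ u v w x, G.Adj u v → G.Adj w x →
              ¬ ((u = w ∧ v = x) ∨ (u = x ∧ v = w)) →
              ∀ s t : unitInterval, γ u v s = γ w x t →
                (s = 0 ∨ s = 1) ∧ (t = 0 ∨ t = 1)) ∧
          (∀ u v w, G.Adj u v → ∀ s : unitInterval, γ u v s = p w →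
              s = 0 ∨ s = 1)) →
      ∃ σ : V → ℕ, Function.Injective σ ∧
        ¬ ∃ a b : Fin 4 → V,
            (∀ i, G.Adj (a i) (b i) ∧ σ (a i) < σ (b i)) ∧
            (∀ i j : Fin 4, i < j →
              ((σ (a i) < σ (a j) ∧ σ (a j) < σ (b i) ∧ σ (b i) < σ (b j)) ∨
               (σ (a j) < σ (a i) ∧ σ (a i) < σ (b j) ∧ σ (b j) < σ (b i)))) := by
  intro V _ G hG
  exact Pool.Agent.Lib.MP_d86530_co.Lev.lev_main Pool.Agent.Lib.MP_d86530_co.Lv.s_dc
    Pool.Agent.Lib.MP_d86530_co.Lv.s_di Pool.Agent.Lib.MP_d86530_co.Lv.s_fd V G hG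

end Pool.Agent.S11745
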