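import Pool.Statements.S11819
import Pool.Agent.Lib.MP_db3372_co.Lower
import Pool.Agent.Lib.MP_db3372_co.Sharp

set_option autoImplicit false
open Pool Pool.MP_db3372_co

namespace Pool.Agent.S11819

/-- For 0≤r<s<d with m=min(C(s+1,r+1),C(d,s)): every d-polytope's r/s-face incidence graph has ≥m+1 s-faces and stays s-connected after deleting ≤m−1 nodes, and some d-polytope fails this with m+1 in place of m. -/
theorem result :
    ∀ d r s : ℕ, r < s → s < d →
      (∀ P : Set (EuclideanSpace ℝ (Fin d)),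
        (∃ S : Finset (EuclideanSpace ℝ (Fin d)), P = convexHull ℝ (S : Set (EuclideanSpace ℝ (Fin d)))) →
        Module.finrank ℝ (vectorSpan ℝ P) = d →
        (min (Nat.choose (s + 1) (r + 1)) (Nat.choose d s) + 1 ≤
            {F : Set (EuclideanSpace ℝ (Fin d)) |
              F.Nonempty ∧ IsExposed ℝ P F ∧ Module.finrank ℝ (vectorSpan ℝ F) = s}.ncard ∧
          ∀ X : Finset (Set (EuclideanSpace ℝ (Fin d))),
            X.card ≤ min (Nat.choose (s + 1) (r + 1)) (Nat.choose d s) - 1 →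
            ∀ A B : Set (EuclideanSpace ℝ (Fin d)),
              (A.Nonempty ∧ IsExposed ℝ P A ∧ Module.finrank ℝ (vectorSpan ℝ A) = s) →
              (B.Nonempty ∧ IsExposed ℝ P B ∧ Module.finrank ℝ (vectorSpan ℝ B) = s) →
              A ∉ X → B ∉ X →
              (SimpleGraph.fromRel (fun F G : Set (EuclideanSpace ℝ (Fin d)) =>
                F ∉ X ∧ G ∉ X ∧
                (F.Nonempty ∧ IsExposed ℝ P F ∧ Module.finrank ℝ (vectorSpan ℝ F) = r) ∧
                (G.Nonempty ∧ IsExposed ℝ P G ∧ Module.finrank ℝ (vectorSpan ℝ G) = s) ∧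
                F ⊆ G)).Reachable A B)) ∧
      (∃ P : Set (EuclideanSpace ℝ (Fin d)),
        (∃ S : Finset (EuclideanSpace ℝ (Fin d)), P = convexHull ℝ (S : Set (EuclideanSpace ℝ (Fin d)))) ∧
        Module.finrank ℝ (vectorSpan ℝ P) = d ∧
        ¬ (min (Nat.choose (s + 1) (r + 1)) (Nat.choose d s) + 1 + 1 ≤
            {F : Set (EuclideanSpace ℝ (Fin d)) |
              F.Nonempty ∧ IsExposed ℝ P F ∧ Module.finrank ℝ (vectorSpan ℝ F) = s}.ncard ∧
          ∀ X : Finset (Set (EuclideanSpace ℝ (Fin d))),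
            X.card ≤ min (Nat.choose (s + 1) (r + 1)) (Nat.choose d s) + 1 - 1 →
            ∀ A B : Set (EuclideanSpace ℝ (Fin d)),
              (A.Nonempty ∧ IsExposed ℝ P A ∧ Module.finrank ℝ (vectorSpan ℝ A) = s) →
              (B.Nonempty ∧ IsExposed ℝ P B ∧ Module.finrank ℝ (vectorSpan ℝ B) = s) →
              A ∉ X → B ∉ X →
              (SimpleGraph.fromRel (fun F G : Set (EuclideanSpace ℝ (Fin d)) =>
                F ∉ X ∧ G ∉ X ∧
                (F.Nonempty ∧ IsExposed ℝ P F ∧ Module.finrank ℝ (vectorSpan ℝ F) = r) ∧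
                (G.Nonempty ∧ IsExposed ℝ P G ∧ Module.finrank ℝ (vectorSpan ℝ G) = s) ∧
                F ⊆ G)).Reachable A B)) := by
  intro d r s hrs hsd
  exact ⟨fun P hP hd => Pool.Agent.Sallee.lower d r s hrs hsd P hP hd,
    Pool.Agent.Sallee.sharp d r s hrs hsd⟩

end Pool.Agent.S11819
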