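import Pool.Statements.S12025
import Pool.Agent.Lib.MP_e26f2a_co.BG.Final

set_option autoImplicit false
open Pool Pool.MP_e26f2a_co

namespace Pool.Agent.S12025

/-- For every k ≥ 2 with k ≠ 3 and k not a power of 2, the odd graph on (k-1)-subsets of a (2k-1)-set (disjointness adjacency) admits a proper edge colouring with k colours. -/
theorem result :
    ∀ k : ℕ, 2 ≤ k → k ≠ 3 → (¬ ∃ n : ℕ, k = 2 ^ n) →
      ∃ c : Finset (Fin (2 * k - 1)) → Finset (Fin (2 * k - 1)) → Fin k,
        (∀ s t : Finset (Fin (2 * k - 1)),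
            s.card = k - 1 → t.card = k - 1 → Disjoint s t → c s t = c t s) ∧
        (∀ s t u : Finset (Fin (2 * k - 1)),
            s.card = k - 1 → t.card = k - 1 → u.card = k - 1 →
            Disjoint s t → Disjoint s u → t ≠ u → c s t ≠ c s u) := by
  exact fun k h2 h3 hp => BG.biggs k h2 h3 hp

end Pool.Agent.S12025
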