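import Pool.Statements.S12152

set_option autoImplicit false
open SimpleGraph
open Pool Pool.MP_e821ef_co

namespace Pool.Agent.S12152

/-- The metric star (hedgehog) with one half-line for each `i : I`; the common origin is the point `(i0, 0)`. -/
def Legs (I : Type) (i0 : I) : Type := {p : I × ℝ // 0 ≤ p.2 ∧ (p.2 = 0 → p.1 = i0)}

namespace Legs

variable {I : Type} {i0 : I}

/-- the leg containing a point -/
def leg (x : Legs I i0) : I := x.1.1
/-- the distance to the origin -/
def ht (x : Legs I i0) : ℝ := x.1.2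

lemma ht_nonneg (x : Legs I i0) : 0 ≤ x.ht := x.2.1
lemma leg_of_ht_zero (x : Legs I i0) (h : x.ht = 0) : x.leg = i0 := x.2.2 h

lemma ext' {x y : Legs I i0} (h1 : x.leg = y.leg) (h2 : x.ht = y.ht) : x = y :=
  Subtype.ext (Prod.ext h1 h2)

open Classical in
noncomputable instance : MetricSpace (Legs I i0) where
  dist x y := if x.leg = y.leg then |x.ht - y.ht| else x.ht + y.ht
  dist_self x := by simp
  dist_comm x y := by
    by_cases h : x.leg = y.leg
    · rw [if_pos h, if_pos h.symm, abs_sub_comm]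
    · rw [if_neg h, if_neg (fun h' => h h'.symm), add_comm]
  dist_triangle x y z := by
    have hx := x.ht_nonneg
    have hy := y.ht_nonneg
    have hz := z.ht_nonneg
    by_cases h1 : x.leg = y.leg
    · by_cases h2 : y.leg = z.leg
      · rw [if_pos h1, if_pos h2, if_pos (h1.trans h2)]
        exact abs_sub_le _ _ _
      · rw [if_pos h1, if_neg h2, if_neg (fun h => h2 (h1.symm.trans h))]
        have := le_abs_self (x.ht - y.ht)
        linarith
    · by_cases h2 : y.leg = z.leg
      · rw [if_neg h1, if_pos h2, if_neg (fun h => h1 (h.trans h2.symm))]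
        have := neg_abs_le (y.ht - z.ht)
        linarith
      · rw [if_neg h1, if_neg h2]
        split_ifs with h3
        · rw [abs_le]
          constructor <;> linarith
        · linarith
  eq_of_dist_eq_zero := by
    intro x y h
    have hx := x.ht_nonneg
    have hy := y.ht_nonneg
    change (if x.leg = y.leg then |x.ht - y.ht| else x.ht + y.ht) = 0 at h
    split_ifs at h with h1
    · exact ext' h1 (by rw [abs_eq_zero] at h; linarith)
    · exfalso
      have hx0 : x.ht = 0 := by linarith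
      have hy0 : y.ht = 0 := by linarith
      exact h1 ((x.leg_of_ht_zero hx0).trans (y.leg_of_ht_zero hy0).symm)

lemma dist_of_eq {x y : Legs I i0} (h : x.leg = y.leg) : dist x y = |x.ht - y.ht| := if_pos h
lemma dist_of_ne {x y : Legs I i0} (h : x.leg ≠ y.leg) : dist x y = x.ht + y.ht := if_neg h

lemma abs_ht_sub_le (x y : Legs I i0) : |x.ht - y.ht| ≤ dist x y := by
  have hx := x.ht_nonneg
  have hy := y.ht_nonneg
  by_cases h : x.leg = y.leg
  · rw [dist_of_eq h]
  · rw [dist_of_ne h, abs_le]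
    constructor <;> linarith

lemma continuous_ht : Continuous (ht : Legs I i0 → ℝ) := by
  have : LipschitzWith 1 (ht : Legs I i0 → ℝ) := by
    apply LipschitzWith.of_dist_le_mul
    intro x y
    rw [Real.dist_eq]
    simpa using abs_ht_sub_le x y
  exact this.continuous

/-- the origin -/
def o (i0 : I) : Legs I i0 := ⟨(i0, 0), le_refl _, fun _ => rfl⟩

lemma ht_pos {x : Legs I i0} (h : x ≠ o i0) : 0 < x.ht := by
  rcases (x.ht_nonneg).lt_or_eq with h1 | h1
  · exact h1
  · exfalso
    apply h
    exact ext' (x.leg_of_ht_zero h1.symm) h1.symm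

lemma ht_pos_of_leg_ne {x : Legs I i0} (h : x.leg ≠ i0) : 0 < x.ht := by
  apply ht_pos
  rintro rfl
  exact h rfl

lemma isOpen_leg (i : I) : IsOpen {x : Legs I i0 | x.leg = i ∧ 0 < x.ht} := by
  rw [Metric.isOpen_iff]
  rintro x ⟨hx, hx0⟩
  refine ⟨x.ht, hx0, ?_⟩
  intro y hy
  rw [Metric.mem_ball] at hy
  have hyn := y.ht_nonneg
  by_cases h : y.leg = x.leg
  · refine ⟨h.trans hx, ?_⟩
    rw [dist_of_eq h, abs_lt] at hy
    linarith [hy.1]
  · exfalso
    rw [dist_of_ne h] at hy
    linarith

lemma isOpen_not_leg (i : I) : IsOpen {x : Legs I i0 | x.leg ≠ i ∧ 0 < x.ht} := by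
  have : {x : Legs I i0 | x.leg ≠ i ∧ 0 < x.ht}
      = ⋃ j : {j : I // j ≠ i}, {x : Legs I i0 | x.leg = j.1 ∧ 0 < x.ht} := by
    ext x
    simp only [Set.mem_ofPred_eq, Set.mem_iUnion, Subtype.exists]
    constructor
    · rintro ⟨h1, h2⟩
      exact ⟨x.leg, h1, rfl, h2⟩
    · rintro ⟨j, hj, h1, h2⟩
      exact ⟨by rw [h1]; exact hj, h2⟩
  rw [this]
  exact isOpen_iUnion fun j => isOpen_leg j.1

lemma leg_eq_of_connected {C : Set (Legs I i0)} (hC : IsPreconnected C) (ho : o i0 ∉ C)
    {x y : Legs I i0} (hx : x ∈ C) (hy : y ∈ C) : x.leg = y.leg := by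
  have hsub : C ⊆ {z : Legs I i0 | z.leg = x.leg ∧ 0 < z.ht}
      ∪ {z : Legs I i0 | z.leg ≠ x.leg ∧ 0 < z.ht} := by
    intro z hz
    have hz0 : 0 < z.ht := ht_pos (fun h => ho (h ▸ hz))
    by_cases h : z.leg = x.leg
    · exact Or.inl ⟨h, hz0⟩
    · exact Or.inr ⟨h, hz0⟩
  have hdisj : Disjoint {z : Legs I i0 | z.leg = x.leg ∧ 0 < z.ht}
      {z : Legs I i0 | z.leg ≠ x.leg ∧ 0 < z.ht} := by
    rw [Set.disjoint_left]
    rintro z ⟨h1, _⟩ ⟨h2, _⟩
    exact h2 h1
  have hx0 : 0 < x.ht := ht_pos (fun h => ho (h ▸ hx))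
  have := hC.subset_left_of_subset_union (isOpen_leg x.leg) (isOpen_not_leg x.leg) hdisj hsub
    ⟨x, hx, rfl, hx0⟩
  exact (this hy).1.symm

/-- A connected set in one leg contains all points of the leg at intermediate height. -/
lemma mem_of_between {C : Set (Legs I i0)} (hC : IsPreconnected C) (ho : o i0 ∉ C)
    {x y z : Legs I i0} (hx : x ∈ C) (hy : y ∈ C) (hz : z.leg = x.leg)
    (h1 : x.ht ≤ z.ht) (h2 : z.ht ≤ y.ht) : z ∈ C := by
  have himg : IsPreconnected (ht '' C) := hC.image _ continuous_ht.continuousOn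
  have hmem : z.ht ∈ ht '' C := by
    apply himg.ordConnected.out (Set.mem_image_of_mem _ hx) (Set.mem_image_of_mem _ hy)
    exact ⟨h1, h2⟩
  obtain ⟨w, hw, hwz⟩ := hmem
  have hleg : w.leg = z.leg := (leg_eq_of_connected hC ho hw hx).trans hz.symm
  have : w = z := ext' hleg hwz
  exact this ▸ hw

/-- the length property -/
lemma length_space (x y : Legs I i0) (ε : ℝ) (hε : 0 < ε) :
    ∃ γ : Path x y, eVariationOn (fun t : unitInterval => γ t) Set.univ
      ≤ ENNReal.ofReal (dist x y + ε) := by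
  classical
  set L : ℝ := dist x y with hL
  have hL0 : 0 ≤ L := dist_nonneg
  -- it is enough to find a Lipschitz map
  suffices h : ∃ F : ℝ → Legs I i0, (∀ s t, dist (F s) (F t) ≤ L * |s - t|) ∧ F 0 = x ∧ F 1 = y by
    obtain ⟨F, hF, h0, h1⟩ := h
    have hlip : LipschitzWith L.toNNReal F := by
      apply LipschitzWith.of_dist_le_mul
      intro s t
      rw [Real.coe_toNNReal _ hL0, Real.dist_eq]
      exact hF s t
    refine ⟨⟨⟨fun t => F t, hlip.continuous.comp continuous_subtype_val⟩, ?_, ?_⟩, ?_⟩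
    · simpa using h0
    · simpa using h1
    · have hmono : MonotoneOn (fun t : unitInterval => (t : ℝ)) Set.univ := by
        intro s _ t _ hst
        exact hst
      have h2 := (hlip.lipschitzOnWith (s := Set.univ)).comp_eVariationOn_le
        (g := fun t : unitInterval => (t : ℝ)) (s := Set.univ) (fun _ _ => Set.mem_univ _)
      have h3 : eVariationOn (fun t : unitInterval => (t : ℝ)) Set.univ ≤ 1 := by
        have h4 := (hmono.eVariationOn_eq (Set.mem_univ (0 : unitInterval))
          (Set.mem_univ (1 : unitInterval))).le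
        have h5 : (Set.univ : Set unitInterval) ∩ Set.Icc 0 1 = Set.univ := by
          ext t
          simp only [Set.mem_inter_iff, Set.mem_univ, Set.mem_Icc, true_and, iff_true]
          exact ⟨t.2.1, t.2.2⟩
        rw [h5] at h4
        simpa using h4
      calc eVariationOn (fun t : unitInterval => F t) Set.univ
          ≤ (L.toNNReal : ENNReal) * eVariationOn (fun t : unitInterval => (t : ℝ)) Set.univ := h2
        _ ≤ (L.toNNReal : ENNReal) * 1 := by gcongr
        _ = ENNReal.ofReal L := by rw [mul_one]; rfl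
        _ ≤ ENNReal.ofReal (L + ε) := ENNReal.ofReal_le_ofReal (by linarith)
  have hxn := x.ht_nonneg
  have hyn := y.ht_nonneg
  by_cases hxy : x.leg = y.leg
  · -- both points in the same leg
    have mk : ∀ t : ℝ, 0 ≤ max ((1 - t) * x.ht + t * y.ht) 0 ∧
        (max ((1 - t) * x.ht + t * y.ht) 0 = 0 →
          (if max ((1 - t) * x.ht + t * y.ht) 0 = 0 then i0 else x.leg) = i0) := by
      intro t
      exact ⟨le_max_right _ _, fun h => if_pos h⟩
    refine ⟨fun t => ⟨(if max ((1 - t) * x.ht + t * y.ht) 0 = 0 then i0 else x.leg,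
      max ((1 - t) * x.ht + t * y.ht) 0), mk t⟩, ?_, ?_, ?_⟩
    · intro s t
      rw [hL, dist_of_eq hxy]
      set a : ℝ := max ((1 - s) * x.ht + s * y.ht) 0 with ha
      set b : ℝ := max ((1 - t) * x.ht + t * y.ht) 0 with hb
      have ha0 : 0 ≤ a := le_max_right _ _
      have hb0 : 0 ≤ b := le_max_right _ _
      have hab : |a - b| ≤ |x.ht - y.ht| * |s - t| := by
        have h1 : |a - b| ≤ |((1 - s) * x.ht + s * y.ht) - ((1 - t) * x.ht + t * y.ht)| := by
          rw [ha, hb]
          exact abs_max_sub_max_le_abs _ _ _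
        have h2 : ((1 - s) * x.ht + s * y.ht) - ((1 - t) * x.ht + t * y.ht)
            = -((x.ht - y.ht) * (s - t)) := by ring
        rw [h2, abs_neg, abs_mul] at h1
        exact h1
      refine le_trans ?_ hab
      -- the distance of the two points is |a - b|
      change (if (if a = 0 then i0 else x.leg) = (if b = 0 then i0 else x.leg)
        then |a - b| else a + b) ≤ |a - b|
      by_cases h1 : a = 0
      · rw [h1, zero_sub, zero_add, abs_neg, abs_of_nonneg hb0]
        split_ifs <;> exact le_refl _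
      · by_cases h2 : b = 0
        · rw [h2, sub_zero, add_zero, abs_of_nonneg ha0]
          split_ifs <;> exact le_refl _
        · rw [if_neg h1, if_neg h2, if_pos rfl]
    · apply ext'
      · change (if max ((1 - 0) * x.ht + 0 * y.ht) 0 = 0 then i0 else x.leg) = x.leg
        have : max ((1 - 0) * x.ht + 0 * y.ht) 0 = x.ht := by
          rw [sub_zero, one_mul, zero_mul, add_zero, max_eq_left hxn]
        rw [this]
        split_ifs with h
        · exact (x.leg_of_ht_zero h).symm
        · rfl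
      · change max ((1 - 0) * x.ht + 0 * y.ht) 0 = x.ht
        rw [sub_zero, one_mul, zero_mul, add_zero, max_eq_left hxn]
    · apply ext'
      · change (if max ((1 - 1) * x.ht + 1 * y.ht) 0 = 0 then i0 else x.leg) = y.leg
        have : max ((1 - 1) * x.ht + 1 * y.ht) 0 = y.ht := by
          rw [sub_self, zero_mul, one_mul, zero_add, max_eq_left hyn]
        rw [this]
        split_ifs with h
        · exact (y.leg_of_ht_zero h).symm
        · exact hxy
      · change max ((1 - 1) * x.ht + 1 * y.ht) 0 = y.ht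
        rw [sub_self, zero_mul, one_mul, zero_add, max_eq_left hyn]
  · -- different legs: through the origin
    have hLe : L = x.ht + y.ht := by rw [hL, dist_of_ne hxy]
    -- height |x.ht - t L|, leg of x before the origin, leg of y after it
    have mk : ∀ t : ℝ, 0 ≤ |x.ht - t * L| ∧ (|x.ht - t * L| = 0 →
        (if x.ht - t * L = 0 then i0 else if 0 < x.ht - t * L then x.leg else y.leg) = i0) := by
      intro t
      refine ⟨abs_nonneg _, fun h => ?_⟩
      rw [if_pos (abs_eq_zero.mp h)]
    refine ⟨fun t => ⟨(if x.ht - t * L = 0 then i0 else if 0 < x.ht - t * L then x.leg else y.leg,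
      |x.ht - t * L|), mk t⟩, ?_, ?_, ?_⟩
    · intro s t
      set a : ℝ := x.ht - s * L with ha
      set b : ℝ := x.ht - t * L with hb
      have hab : |a - b| = L * |s - t| := by
        have : a - b = -(L * (s - t)) := by rw [ha, hb]; ring
        rw [this, abs_neg, abs_mul, abs_of_nonneg hL0]
      rw [← hab]
      change (if (if a = 0 then i0 else if 0 < a then x.leg else y.leg)
          = (if b = 0 then i0 else if 0 < b then x.leg else y.leg)
        then |(|a| - |b|)| else |a| + |b|) ≤ |a - b|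
      rcases lt_trichotomy a 0 with h1 | h1 | h1 <;> rcases lt_trichotomy b 0 with h2 | h2 | h2
      · -- both negative
        rw [if_neg h1.ne, if_neg h2.ne, if_neg (not_lt.mpr h1.le), if_neg (not_lt.mpr h2.le),
          if_pos rfl]
        exact abs_abs_sub_abs_le_abs_sub a b
      · rw [h2]
        split_ifs <;> simp [abs_of_nonneg]
      · split_ifs
        · exact abs_abs_sub_abs_le_abs_sub a b
        · rw [abs_of_neg h1, abs_of_pos h2, abs_of_neg (by linarith : a - b < 0)]
          linarith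
        all_goals first
          | exact abs_abs_sub_abs_le_abs_sub a b
          | (rw [abs_of_neg h1, abs_of_pos h2, abs_of_neg (by linarith : a - b < 0)]; linarith)
      · rw [h1]
        split_ifs <;> simp
      · rw [h1, h2]
        split_ifs <;> simp
      · rw [h1]
        split_ifs <;> simp
      · split_ifs
        all_goals first
          | exact abs_abs_sub_abs_le_abs_sub a b
          | (rw [abs_of_pos h1, abs_of_neg h2, abs_of_pos (by linarith : 0 < a - b)]; linarith)
      · rw [h2]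
        split_ifs <;> simp
      · rw [if_neg h1.ne', if_neg h2.ne', if_pos h1, if_pos h2, if_pos rfl]
        exact abs_abs_sub_abs_le_abs_sub a b
    · apply ext'
      · change (if x.ht - 0 * L = 0 then i0 else if 0 < x.ht - 0 * L then x.leg else y.leg) = x.leg
        rw [zero_mul, sub_zero]
        split_ifs with h h'
        · exact (x.leg_of_ht_zero h).symm
        · rfl
        · exact absurd (lt_of_le_of_ne hxn (Ne.symm h)) h'
      · change |x.ht - 0 * L| = x.ht
        rw [zero_mul, sub_zero, abs_of_nonneg hxn]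
    · have e : x.ht - 1 * L = -y.ht := by rw [hLe]; ring
      apply ext'
      · change (if x.ht - 1 * L = 0 then i0 else if 0 < x.ht - 1 * L then x.leg else y.leg) = y.leg
        rw [e]
        split_ifs with h h'
        · exact (y.leg_of_ht_zero (by linarith)).symm
        · linarith
        · rfl
      · change |x.ht - 1 * L| = y.ht
        rw [e, abs_neg, abs_of_nonneg hyn]

end Legs

open Legs in
/-- No fat minor whose graph has minimum degree two after the deletion of any vertex. -/
lemma no_minor {I : Type} {i0 : I} {V : Type} [Fintype V] (Δ : SimpleGraph V)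
    (hΔ : ∀ v0 v : V, v ≠ v0 → ∃ x y : V, x ≠ y ∧ x ≠ v0 ∧ y ≠ v0 ∧ Δ.Adj v x ∧ Δ.Adj v y)
    (v1 v2 : V) (hv12 : v1 ≠ v2)
    (B : V → Set (Legs I i0)) (P : V → V → Set (Legs I i0))
    (hB : ∀ v, IsConnected (B v))
    (hBd : ∀ v v', v ≠ v' → Disjoint (B v) (B v'))
    (hP : ∀ u w, Δ.Adj u w → P u w = P w u ∧
              ∃ g : unitInterval → Legs I i0, Continuous g ∧ Function.Injective g ∧
                Set.range g = P u w ∧ g 0 ∈ B u ∧ g 1 ∈ B w ∧
                P u w ∩ (⋃ v, B v) = {g 0, g 1})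
    (hPd : ∀ u w u' w', Δ.Adj u w → Δ.Adj u' w' → s(u, w) ≠ s(u', w') →
              Disjoint (P u w) (P u' w')) : False := by
  classical
  -- choose the vertex to delete
  obtain ⟨v0, hv0B, hv0P⟩ : ∃ v0 : V, (∀ v, v ≠ v0 → o i0 ∉ B v) ∧
      (∀ u w, Δ.Adj u w → u ≠ v0 → w ≠ v0 → o i0 ∉ P u w) := by
    by_cases h1 : ∃ v, o i0 ∈ B v
    · obtain ⟨v0, h0⟩ := h1
      have hB' : ∀ v, v ≠ v0 → o i0 ∉ B v := fun v hv hmem =>
        (Set.disjoint_left.mp (hBd v v0 hv)) hmem h0
      refine ⟨v0, hB', ?_⟩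
      intro u w huw hu hw hmem
      obtain ⟨_, g, _, _, _, h0u, h1w, hint⟩ := hP u w huw
      have : o i0 ∈ P u w ∩ (⋃ v, B v) := ⟨hmem, Set.mem_iUnion.mpr ⟨v0, h0⟩⟩
      rw [hint] at this
      rcases this with h | h
      · exact hB' u hu (h ▸ h0u)
      · rw [Set.mem_singleton_iff] at h
        exact hB' w hw (h ▸ h1w)
    · by_cases h2 : ∃ u w, Δ.Adj u w ∧ o i0 ∈ P u w
      · obtain ⟨x, y, hxy, hmem⟩ := h2
        refine ⟨x, fun v _ hv => h1 ⟨v, hv⟩, ?_⟩
        intro u w huw hu hw hmem'
        have hne : s(u, w) ≠ s(x, y) := by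
          intro h
          rw [Sym2.eq_iff] at h
          rcases h with ⟨h, _⟩ | ⟨_, h⟩
          · exact hu h
          · exact hw h
        exact (Set.disjoint_left.mp (hPd u w x y huw hxy hne)) hmem' hmem
      · exact ⟨v1, fun v _ hv => h1 ⟨v, hv⟩, fun u w huw _ _ hmem => h2 ⟨u, w, huw, hmem⟩⟩
  -- a point in every branch set
  choose b hb using fun v => (hB v).nonempty
  -- the vertex, different from v0, of minimum height
  obtain ⟨v, hv, hmin⟩ : ∃ v, v ≠ v0 ∧ ∀ w, w ≠ v0 → (b v).ht ≤ (b w).ht := by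
    have hne : (Finset.univ.filter (fun v => v ≠ v0)).Nonempty := by
      by_cases h : v1 = v0
      · exact ⟨v2, by simp [← h, hv12.symm]⟩
      · exact ⟨v1, by simp [h]⟩
    obtain ⟨v, hv, hmin⟩ := Finset.exists_min_image _ (fun v => (b v).ht) hne
    refine ⟨v, (Finset.mem_filter.mp hv).2, fun w hw => hmin w (by simp [hw])⟩
  obtain ⟨x, y, hxy, hx, hy, hvx, hvy⟩ := hΔ v0 v hv
  -- connectedness of B v ∪ P v x ∪ B x
  have hconn : ∀ x, x ≠ v0 → Δ.Adj v x → IsPreconnected (B v ∪ P v x ∪ B x) ∧
      o i0 ∉ B v ∪ P v x ∪ B x := by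
    intro x hx hvx
    obtain ⟨_, g, hg, _, hrange, h0, h1, _⟩ := hP v x hvx
    have hPc : IsPreconnected (P v x) := by
      rw [← hrange]
      exact isPreconnected_range hg
    refine ⟨?_, ?_⟩
    · refine IsPreconnected.union (g 1) ?_ h1 ?_ (hB x).isPreconnected
      · exact Or.inr (hrange ▸ Set.mem_range_self 1)
      · exact IsPreconnected.union (g 0) h0 (hrange ▸ Set.mem_range_self 0)
          (hB v).isPreconnected hPc
    · rintro ((h | h) | h)
      · exact hv0B v hv h
      · exact hv0P v x hvx hv hx h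
      · exact hv0B x hx h
  -- the farther neighbour's arc crosses the nearer one's branch set
  have main : ∀ x y, x ≠ y → x ≠ v0 → y ≠ v0 → Δ.Adj v x → Δ.Adj v y →
      (b x).ht ≤ (b y).ht → False := by
    intro x y hxy hx hy hvx hvy hle
    obtain ⟨c1, c2⟩ := hconn x hx hvx
    obtain ⟨d1, d2⟩ := hconn y hy hvy
    have hlegx : (b x).leg = (b v).leg :=
      leg_eq_of_connected c1 c2 (Or.inr (hb x)) (Or.inl (Or.inl (hb v)))
    have hmem : b x ∈ B v ∪ P v y ∪ B y :=
      mem_of_between d1 d2 (Or.inl (Or.inl (hb v))) (Or.inr (hb y)) hlegx (hmin x hx) hle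
    rcases hmem with (h | h) | h
    · exact (Set.disjoint_left.mp (hBd v x hvx.ne)) h (hb x)
    · obtain ⟨_, g, _, _, _, h0, h1, hint⟩ := hP v y hvy
      have : b x ∈ P v y ∩ (⋃ v, B v) := ⟨h, Set.mem_iUnion.mpr ⟨x, hb x⟩⟩
      rw [hint] at this
      rcases this with h' | h'
      · exact (Set.disjoint_left.mp (hBd v x hvx.ne)) (h' ▸ h0) (hb x)
      · rw [Set.mem_singleton_iff] at h'
        exact (Set.disjoint_left.mp (hBd y x hxy.symm)) (h' ▸ h1) (hb x)
    · exact (Set.disjoint_left.mp (hBd y x hxy.symm)) h (hb x)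
  rcases le_total (b x).ht (b y).ht with h | h
  · exact main x y hxy hx hy hvx hvy h
  · exact main y x hxy.symm hy hx hvy hvx h

lemma deg_K5 : ∀ v0 v : Fin 5, v ≠ v0 → ∃ x y : Fin 5, x ≠ y ∧ x ≠ v0 ∧ y ≠ v0 ∧
    (⊤ : SimpleGraph (Fin 5)).Adj v x ∧ (⊤ : SimpleGraph (Fin 5)).Adj v y := by
  simp only [SimpleGraph.top_adj]
  decide

lemma deg_K33 : ∀ v0 v : Fin 3 ⊕ Fin 3, v ≠ v0 → ∃ x y : Fin 3 ⊕ Fin 3,
    x ≠ y ∧ x ≠ v0 ∧ y ≠ v0 ∧
    (completeBipartiteGraph (Fin 3) (Fin 3)).Adj v x ∧
    (completeBipartiteGraph (Fin 3) (Fin 3)).Adj v y := by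
  simp only [completeBipartiteGraph_adj]
  decide

/-- The negation of the preceding statement: A length space is quasi-isometric to some planar graph with edge weights in (0,1] (weighted path metric on vertices) if and only if, for K equal to K5 or K3,3, it fails to have K-fat minors of that graph for every K>0. -/
theorem result :
    ¬ (∀ (X : Type) [MetricSpace X],
    (∀ x y : X, ∀ ε : ℝ, 0 < ε → ∃ γ : Path x y,
        eVariationOn (fun t : unitInterval => γ t) Set.univ ≤ ENNReal.ofReal (dist x y + ε)) →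
    ((∃ (W : Type) (G : SimpleGraph W) (wt : Sym2 W → ℝ),
        G.Preconnected ∧
        (∀ e ∈ G.edgeSet, 0 < wt e ∧ wt e ≤ 1) ∧
        (∃ (φ : W → ℝ × ℝ) (α : W → W → unitInterval → ℝ × ℝ),
          Function.Injective φ ∧
          (∀ a b, G.Adj a b → Continuous (α a b) ∧ Function.Injective (α a b) ∧
              α a b 0 = φ a ∧ α a b 1 = φ b ∧
              ∀ t : unitInterval, 0 < t → t < 1 → ∀ c, α a b t ≠ φ c) ∧
          (∀ a b a' b', G.Adj a b → G.Adj a' b' → s(a, b) ≠ s(a', b') →
              ∀ t t' : unitInterval, 0 < t → t < 1 → 0 < t' → t' < 1 →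
                α a b t ≠ α a' b' t')) ∧
        ∃ (f : X → W) (M A : ℝ), 1 ≤ M ∧ 0 ≤ A ∧
          (∀ x y : X,
            M⁻¹ * dist x y - A ≤ (⨅ p : G.Walk (f x) (f y), (p.edges.map wt).sum) ∧
            (⨅ p : G.Walk (f x) (f y), (p.edges.map wt).sum) ≤ M * dist x y + A) ∧
          ∀ b : W, ∃ x : X, (⨅ p : G.Walk (f x) b, (p.edges.map wt).sum) ≤ A)
     ↔
     ∀ (V : Type) [Fintype V] (Δ : SimpleGraph V),
       (Nonempty (SimpleGraph.Iso Δ (⊤ : SimpleGraph (Fin 5))) ∨
          Nonempty (SimpleGraph.Iso Δ (completeBipartiteGraph (Fin 3) (Fin 3)))) →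
       ¬ ∀ K : ℝ, 0 < K → ∃ (B : V → Set X) (P : V → V → Set X),
           (∀ v, IsConnected (B v)) ∧
           (∀ v v', v ≠ v' → Disjoint (B v) (B v')) ∧
           (∀ u w, Δ.Adj u w → P u w = P w u ∧
              ∃ g : unitInterval → X, Continuous g ∧ Function.Injective g ∧
                Set.range g = P u w ∧ g 0 ∈ B u ∧ g 1 ∈ B w ∧
                P u w ∩ (⋃ v, B v) = {g 0, g 1}) ∧
           (∀ u w u' w', Δ.Adj u w → Δ.Adj u' w' → s(u, w) ≠ s(u', w') →
              Disjoint (P u w) (P u' w') ∧ ∀ y ∈ P u w, ∀ z ∈ P u' w', K ≤ dist y z) ∧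
           (∀ v v', v ≠ v' → ∀ y ∈ B v, ∀ z ∈ B v', K ≤ dist y z) ∧
           (∀ u w v, Δ.Adj u w → v ≠ u → v ≠ w →
              ∀ y ∈ P u w, ∀ z ∈ B v, K ≤ dist y z))) := by
  intro hall
  -- more legs than points of the plane
  have hstar := hall (Legs (Set (ℝ × ℝ)) ∅) Legs.length_space
  have hright := hstar.mpr ?_
  · obtain ⟨W, G, wt, _, hwt, ⟨φ, _, hφ, _⟩, f, M, A, hM, hA, hf, _⟩ := hright
    have hM0 : 0 < M := by linarith
    have hR : 0 < M * A + 1 := by positivity
    -- the point at height M A + 1 on each leg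
    let p : Set (ℝ × ℝ) → Legs (Set (ℝ × ℝ)) ∅ := fun i =>
      ⟨(i, M * A + 1), hR.le, fun h => absurd h hR.ne'⟩
    have hinj : Function.Injective (fun i => φ (f (p i))) := by
      intro i j hij
      by_contra hne
      have hfij : f (p i) = f (p j) := hφ hij
      have h1 := (hf (p i) (p j)).1
      rw [hfij] at h1
      have hbdd : BddBelow (Set.range fun q : G.Walk (f (p j)) (f (p j)) =>
          (q.edges.map wt).sum) := by
        refine ⟨0, ?_⟩
        rintro _ ⟨q, rfl⟩
        apply List.sum_nonneg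
        intro z hz
        rw [List.mem_map] at hz
        obtain ⟨e, he, rfl⟩ := hz
        exact (hwt e (q.edges_subset_edgeSet he)).1.le
      have h2 : (⨅ q : G.Walk (f (p j)) (f (p j)), (q.edges.map wt).sum) ≤ 0 := by
        refine (ciInf_le hbdd SimpleGraph.Walk.nil).trans ?_
        simp
      have hd : dist (p i) (p j) = (M * A + 1) + (M * A + 1) := Legs.dist_of_ne hne
      rw [hd] at h1
      have h3 : M⁻¹ * ((M * A + 1) + (M * A + 1)) ≤ A := by linarith
      have h4 : M * (M⁻¹ * ((M * A + 1) + (M * A + 1))) ≤ M * A :=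
        mul_le_mul_of_nonneg_left h3 hM0.le
      rw [mul_inv_cancel_left₀ hM0.ne'] at h4
      have : 0 ≤ M * A := by positivity
      linarith
    exact Function.cantor_injective _ hinj
  · intro V _ Δ hΔ hK
    obtain ⟨B, P, hB, hBd, hP, hPd, _, _⟩ := hK 1 one_pos
    rcases hΔ with ⟨⟨e⟩⟩ | ⟨⟨e⟩⟩
    · refine no_minor Δ ?_ (e.symm 0) (e.symm 1) ?_ B P hB hBd hP
        (fun u w u' w' h1 h2 h3 => (hPd u w u' w' h1 h2 h3).1)
      · intro v0 v hv
        obtain ⟨x, y, h1, h2, h3, h4, h5⟩ := deg_K5 (e v0) (e v) (fun h => hv (e.injective h))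
        refine ⟨e.symm x, e.symm y, fun h => h1 (e.symm.injective h), ?_, ?_, ?_, ?_⟩
        · rintro rfl; exact h2 (by simp)
        · rintro rfl; exact h3 (by simp)
        · rw [← e.map_adj_iff]; simpa using h4
        · rw [← e.map_adj_iff]; simpa using h5
      · intro h
        have := e.symm.injective h
        exact absurd this (by decide)
    · refine no_minor Δ ?_ (e.symm (Sum.inl 0)) (e.symm (Sum.inl 1)) ?_ B P hB hBd hP
        (fun u w u' w' h1 h2 h3 => (hPd u w u' w' h1 h2 h3).1)
      · intro v0 v hv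
        obtain ⟨x, y, h1, h2, h3, h4, h5⟩ := deg_K33 (e v0) (e v) (fun h => hv (e.injective h))
        refine ⟨e.symm x, e.symm y, fun h => h1 (e.symm.injective h), ?_, ?_, ?_, ?_⟩
        · rintro rfl; exact h2 (by simp)
        · rintro rfl; exact h3 (by simp)
        · rw [← e.map_adj_iff]; simpa using h4
        · rw [← e.map_adj_iff]; simpa using h5
      · intro h
        have := e.symm.injective h
        exact absurd this (by decide)

end Pool.Agent.S12152
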