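import Pool.Statements.S12594
import Pool.Agent.Lib.MP_fce888_co.Final

set_option autoImplicit false
open Matrix
open Pool Pool.MP_fce888_co

namespace Pool.Agent.S12594

/-- The negation of the preceding statement: There is a constant C such that, as n=2j grows, almost all labelled cubic graphs on n vertices have a spanning tree polytope that is an affine projection of a polyhedron given by at most C·n linear inequalities. -/
theorem result :
    ¬ (∃ C : ℝ, Filter.Tendsto (fun j : ℕ =>
    ((({G : SimpleGraph (Fin (2 * j)) |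
        (∀ v, (G.neighborSet v).ncard = 3) ∧
        ∃ (k m : ℕ) (A : Matrix (Fin m) (Fin k) ℝ) (b : Fin m → ℝ)
          (π : (Fin k → ℝ) →ᵃ[ℝ] (Sym2 (Fin (2 * j)) → ℝ)),
          (m : ℝ) ≤ C * ((2 * j : ℕ) : ℝ) ∧
          π '' {w : Fin k → ℝ | A *ᵥ w ≤ b} =
            convexHull ℝ {x : Sym2 (Fin (2 * j)) → ℝ |
              ∃ T : SimpleGraph (Fin (2 * j)), T ≤ G ∧ T.IsTree ∧
                x = T.edgeSet.indicator (fun _ => (1 : ℝ))}} :
        Set (SimpleGraph (Fin (2 * j)))).ncard : ℝ) /
     (({G : SimpleGraph (Fin (2 * j)) | ∀ v, (G.neighborSet v).ncard = 3} :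
        Set (SimpleGraph (Fin (2 * j)))).ncard : ℝ)))
    Filter.atTop (nhds 1)) := by
  exact Pool.Agent.Lib.MP_fce888_co.assembly Pool.Agent.Lib.MP_fce888_co.FStatement_proof
    Pool.Agent.Lib.MP_fce888_co.GE.gStatement Pool.Agent.Lib.MP_fce888_co.S.sStatement
    Pool.Agent.Lib.MP_fce888_co.cStatement

end Pool.Agent.S12594
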