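import Pool.Statements.S13210
import Pool.Agent.Lib.MP_598757_gt.Box

set_option autoImplicit false
open MeasureTheory
open scoped Pointwise
open Pool Pool.MP_598757_gt

namespace Pool.Agent.S13210

/-- The negation of the preceding statement: For every convex body K in 3-space and real c: if every orthogonal plane projection has isoperimetric ratio π·area/V₁² at least c, then 9π·vol(K)²/(2·V₂(K)³) is at least c (V₁, V₂ given via Steiner-formula limits). -/
theorem result :
    ¬ (∀ (K : Set (EuclideanSpace ℝ (Fin 3))) (c : ℝ),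
    IsCompact K → Convex ℝ K → (interior K).Nonempty →
    (∀ u ∈ Metric.sphere (0 : EuclideanSpace ℝ (Fin 3)) 1, ∀ L : ℝ,
      Filter.Tendsto (fun t : ℝ =>
        ((volume ((fun x : EuclideanSpace ℝ (Fin 3) => x - (inner ℝ u x) • u) '' K
              + Metric.closedBall (0 : EuclideanSpace ℝ (Fin 3)) t)).toReal
          - 2 * t * ((volume (K + segment ℝ (0 : EuclideanSpace ℝ (Fin 3)) u)).toReal
              - (volume K).toReal)) / (Real.pi * t ^ 2))
        (nhdsWithin 0 (Set.Ioi 0)) (nhds L) →
      c ≤ Real.pi * ((volume (K + segment ℝ (0 : EuclideanSpace ℝ (Fin 3)) u)).toReal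
              - (volume K).toReal) / L ^ 2) →
    ∀ S : ℝ,
      Filter.Tendsto (fun t : ℝ =>
        ((volume (K + Metric.closedBall (0 : EuclideanSpace ℝ (Fin 3)) t)).toReal
          - (volume K).toReal) / (2 * t))
        (nhdsWithin 0 (Set.Ioi 0)) (nhds S) →
      c ≤ 9 * Real.pi * (volume K).toReal ^ 2 / (2 * S ^ 3)) := by
  intro H
  have hpi3 : (3 : ℝ) < Real.pi := Real.pi_gt_three
  have hpi4 : Real.pi < (4 : ℝ) := Real.pi_lt_four
  have hv : (volume (Pool.Agent.Lib.MP_598757_gt.box (1 / 1000))).toReal = 8 * (1 / 1000) := by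
    rw [Pool.Agent.Lib.MP_598757_gt.vol_box (by norm_num), ENNReal.toReal_ofReal (by norm_num)]
  have h := H (Pool.Agent.Lib.MP_598757_gt.box (1 / 1000)) (1 / 20000)
    (Pool.Agent.Lib.MP_598757_gt.box_compact (by norm_num) (by norm_num))
    (Pool.Agent.Lib.MP_598757_gt.box_convex _)
    (Pool.Agent.Lib.MP_598757_gt.box_interior (by norm_num)) ?_ (4 + 8 * (1 / 1000))
    (Pool.Agent.Lib.MP_598757_gt.box_limit (by norm_num))
  · rw [hv] at h
    norm_num at h
    linarith
  · intro u hu L hL
    rw [mem_sphere_zero_iff_norm] at hu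
    have hb := Pool.Agent.Lib.MP_598757_gt.ratio_bound
      (Pool.Agent.Lib.MP_598757_gt.box_compact (e := 1 / 1000) (by norm_num) (by norm_num))
      (Pool.Agent.Lib.MP_598757_gt.box_convex _) (R := 2) (by norm_num)
      (Pool.Agent.Lib.MP_598757_gt.box_norm (by norm_num) (by norm_num))
      (by rw [hv]; norm_num) hu hL
    refine le_trans ?_ hb
    rw [hv]
    have h27 : (27 : ℝ) ≤ Real.pi ^ 3 := by
      calc (27 : ℝ) = 3 ^ 3 := by norm_num
        _ ≤ Real.pi ^ 3 := by gcongr
    norm_num
    linarith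

end Pool.Agent.S13210
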