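import Pool.Statements.S13343
import Pool.Agent.Lib.MP_6d896a_gt.FK.Main

set_option autoImplicit false
open Pointwise
open Pool Pool.MP_6d896a_gt

namespace Pool.Agent.S13343

/-- There is C>0 such that for every n, every log-concave probability measure on R^n with all directional variances at most s, and every Borel S, the boundary measure of S is at least C/sqrt(s) times min(mu(S), mu(complement of S)). -/
theorem result :
    ∃ C : ℝ, 0 < C ∧
      ∀ (n : ℕ) (μ : MeasureTheory.Measure (EuclideanSpace ℝ (Fin n))),
        MeasureTheory.IsProbabilityMeasure μ →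
        (∀ (A B : Set (EuclideanSpace ℝ (Fin n))) (t : ℝ),
            IsCompact A → IsCompact B → 0 < t → t < 1 →
              (μ A) ^ t * (μ B) ^ (1 - t) ≤ μ (t • A + (1 - t) • B)) →
        ∀ s : ℝ, 0 < s →
          (∀ θ : EuclideanSpace ℝ (Fin n), ‖θ‖ = 1 →
              ProbabilityTheory.variance (fun x => inner ℝ x θ) μ ≤ s) →
          ∀ S : Set (EuclideanSpace ℝ (Fin n)), MeasurableSet S →
            ENNReal.ofReal (C / Real.sqrt s) * min (μ S) (μ Sᶜ) ≤
              Filter.liminf
                (fun ε : ℝ => (μ (Metric.thickening ε S) - μ S) / ENNReal.ofReal ε)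
                (nhdsWithin 0 (Set.Ioi 0)) :=
  Pool.Agent.Lib.MP_6d896a_gt.FK.kls

end Pool.Agent.S13343
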