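import Pool.Statements.S13392
import Pool.Agent.Lib.MP_74810d_gt.Model

set_option autoImplicit false
open Pool Pool.MP_74810d_gt

namespace Pool.Agent.S13392

/-- The negation of the preceding statement: For every n ≥ 1 and every simply connected second countable Hausdorff topological n-manifold Q, some smooth flow on R^(n+1) has orbit space, with the quotient topology, homeomorphic to Q. -/
theorem result :
    ¬ (∀ n : ℕ, 1 ≤ n →
      ∀ (Q : Type) [TopologicalSpace Q] [T2Space Q] [SecondCountableTopology Q]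
        [ChartedSpace (EuclideanSpace ℝ (Fin n)) Q] [SimplyConnectedSpace Q],
        ∃ Φ : ℝ → EuclideanSpace ℝ (Fin (n + 1)) → EuclideanSpace ℝ (Fin (n + 1)),
          ContDiff ℝ (⊤ : ℕ∞)
              (fun p : ℝ × EuclideanSpace ℝ (Fin (n + 1)) => Φ p.1 p.2) ∧
          (∀ x, Φ 0 x = x) ∧
          (∀ (s t : ℝ) (x : EuclideanSpace ℝ (Fin (n + 1))), Φ (s + t) x = Φ s (Φ t x)) ∧
          Nonempty
            (Quot (fun x y : EuclideanSpace ℝ (Fin (n + 1)) => ∃ t : ℝ, Φ t x = y) ≃ₜ Q)) := by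
  intro hall
  have hsc : SimplyConnectedSpace (Pool.Agent.MP74810d.S2 × Pool.Agent.MP74810d.S2) :=
    Pool.Agent.MP74810d.simplyConnected_S2S2
  obtain ⟨Φ, hΦ, h0, hadd, ⟨e⟩⟩ := hall 4 (by norm_num)
    (Pool.Agent.MP74810d.S2 × Pool.Agent.MP74810d.S2)
  exact Pool.Agent.MP74810d.no_flow_S2S2 (by norm_num) hΦ.continuous h0 hadd e

end Pool.Agent.S13392
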