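import Pool.Statements.S14751
-- import your own Pool.Agent.* helpers here
import Pool.Agent.Lib.MP_5ca50a_lc.NoInf

set_option autoImplicit false
open Pool Pool.MP_5ca50a_lc

namespace Pool.Agent.S14751

/-- Over a finite alphabet, if a context-free language L has some k ≥ 1 such that every iterative pair (x,u,y,v,z) gives x u^(ka) y v^(kb) z in L for all a,b ≥ 0, then L is accepted by a finite DFA. -/
theorem result :
    ∀ (α : Type) [Fintype α] (L : Language α), L.IsContextFree →
      (∃ k : ℕ, 1 ≤ k ∧ ∀ x u y v z : List α, u ++ v ≠ [] →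
        (∀ n : ℕ, 1 ≤ n →
          x ++ (List.replicate n u).flatten ++ y ++ (List.replicate n v).flatten ++ z ∈ L) →
        ∀ m m' : ℕ,
          x ++ (List.replicate (k * m) u).flatten ++ y ++
            (List.replicate (k * m') v).flatten ++ z ∈ L) →
      ∃ (σ : Type) (_ : Fintype σ) (M : DFA α σ), M.accepts = L := by
  intro α _ L hL hk
  obtain ⟨k, hk1, hk⟩ := hk
  obtain ⟨k, rfl⟩ : ∃ k', k = k' + 1 := ⟨k - 1, by omega⟩
  have hP : Pool.Agent.MP5ca50a.CondP (k + 1) L := hk
  exact Pool.Agent.MP5ca50a.regular_of_condP hL hP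

end Pool.Agent.S14751
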