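import Pool.Statements.S16968

set_option autoImplicit false
open Pool Pool.MP_5317dd_nt

namespace Pool.Agent.S16968

/-- The map `F_13`, written exactly as in the frozen statement with `D = 13`. -/
def F13 (x : ℕ) : ℕ :=
  if x % 13 = 0 then x / 13
  else if x % 13 = 13 - 1 then (13 + 1) * x + 1
  else (13 + 1) * x - x % 13

/-- `147` lies on a cycle of `F_13` of length `71`. -/
theorem period : F13^[71] 147 = 147 := by decide +kernel

/-- Every member of that cycle is at least `13`. -/
theorem members : ∀ j < 71, 13 ≤ F13^[j] 147 := by decide +kernel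

theorem all_large (k : ℕ) : 13 ≤ F13^[k] 147 := by
  have hp : Function.IsPeriodicPt F13 71 147 := period
  rw [← hp.iterate_mod_apply k]
  exact members _ (Nat.mod_lt _ (by norm_num))

/-- The negation of the preceding statement: For every D ≥ 2 and every n ≥ 1, iterating F_D from n eventually gives a value below D. Here F_D(x) is x/D if D divides x, (D+1)x+1 if x ≡ −1 mod D, and (D+1)x − (x mod D) otherwise. -/
theorem result :
    ¬ (∀ D : ℕ, 2 ≤ D → ∀ n : ℕ, 1 ≤ n →
      ∃ k : ℕ,
        (fun x : ℕ =>
          if x % D = 0 then x / D
          else if x % D = D - 1 then (D + 1) * x + 1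
          else (D + 1) * x - x % D)^[k] n < D) := by
  intro h
  obtain ⟨k, hk⟩ := h 13 (by norm_num) 147 (by norm_num)
  exact absurd (all_large k) (not_le.mpr hk)

end Pool.Agent.S16968
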