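import Pool.Statements.S17685
import Pool.Agent.Lib.MP_89da58_nt.Final
import Pool.Agent.Lib.MP_89da58_nt.Small
import Pool.Agent.Lib.MP_89da58_nt.Large
import Pool.Agent.Lib.MP_89da58_nt.Bv
import Pool.Agent.Lib.MP_89da58_nt.BvW
import Pool.Agent.Lib.MP_89da58_nt.Tree

set_option autoImplicit false
open Pool Pool.MP_89da58_nt

namespace Pool.Agent.S17685

/-- For every colouring of the primes with finitely many colours, some colour class E has E − E syndetic in the integers: there is L such that every integer window [n, n+L] contains a difference p − q of two primes of that colour. -/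
theorem result :
    ∀ k : ℕ, ∀ c : ℕ → Fin k, ∃ i : Fin k, ∃ L : ℕ, ∀ n : ℤ,
      ∃ p q : ℕ, p.Prime ∧ q.Prime ∧ c p = i ∧ c q = i ∧
        n ≤ (p : ℤ) - (q : ℤ) ∧ (p : ℤ) - (q : ℤ) ≤ n + (L : ℤ) :=
  Pool.Agent.MP89da58.syndetic_of_sieve
    (Pool.Agent.MP89da58.sieve_main (fun b W hW A =>
      Pool.Agent.MP89da58.bv_weighted_of
        (fun A' => Pool.Agent.MP89da58.bv_of Pool.Agent.MP89da58.small_conductors
          Pool.Agent.MP89da58.large_conductors A') b W hW A))

end Pool.Agent.S17685
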