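import Pool.Statements.S17726
import Pool.Agent.Lib.CB.Main

set_option autoImplicit false
open Pool Pool.MP_8dd8b0_nt

namespace Pool.Agent.S17726

/-- The negation of the preceding statement: For any two distinct odd primes p, q with n = pq, the binomial coefficient C(n-1, (n-1)/2) is not congruent to (-1)^((n-1)/2) modulo n. -/
theorem result :
    ¬ (∀ p q : ℕ, p.Prime → q.Prime → Odd p → Odd q → p ≠ q →
      ¬ ((Nat.choose (p * q - 1) ((p * q - 1) / 2) : ℤ) ≡
          (-1 : ℤ) ^ ((p * q - 1) / 2) [ZMOD ((p * q : ℕ) : ℤ)])) := by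
  intro h
  obtain ⟨p, q, hp, hq, hop, hoq, hne, hc⟩ := Pool.Agent.CB.exists_counterexample
  exact h p q hp hq hop hoq hne hc

end Pool.Agent.S17726
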