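-- Frozen statement S17915 (problem MP_9e760c_nt).  Proof: see Pool/Agent/Lib/MP_9e760c_nt/Induction.lean
-- (blueprint and induction by helper54; near-diagonal chains by helper69; kernel-checked boxes by helper85).
import Pool.Statements.S17915
import Pool.Agent.Lib.MP_9e760c_nt.Induction

set_option autoImplicit false
open Pool Pool.MP_9e760c_nt

namespace Pool.Agent.S17915

/-- For every natural number n greater than 5040, the sum of 1/(e − d) over all pairs of divisors d < e of n is strictly less than the number of divisors of n. -/
theorem result :
    ∀ n : ℕ, 5040 < n →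
      (∑ d ∈ n.divisors, ∑ e ∈ n.divisors.filter (fun e => d < e),
          (1 : ℝ) / ((e : ℝ) - (d : ℝ))) < (n.divisors.card : ℝ) := by
  intro n hn
  exact Pool.MP_9e760c_nt.GapSum.frozen n hn

end Pool.Agent.S17915
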