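import Pool.Statements.S18806
import Pool.Agent.Lib.MP_e664f7_nt.Main

set_option autoImplicit false
open Pool Pool.MP_e664f7_nt

namespace Pool.Agent.S18806

/-- The negation of the preceding statement: For every nonempty finite set A of positive integers all at most n, and every integer x > n, the proportion of integers in [1,x] divisible by some element of A is less than twice that proportion for [1,n]. -/
theorem result :
    ¬ (∀ n : ℕ, ∀ A : Finset ℕ, A.Nonempty → (∀ a ∈ A, 0 < a ∧ a ≤ n) →
      ∀ x : ℕ, n < x →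
        ((((Finset.Icc 1 x).filter (fun m => ∃ a ∈ A, a ∣ m)).card : ℝ) / (x : ℝ)) <
          2 * ((((Finset.Icc 1 n).filter (fun m => ∃ a ∈ A, a ∣ m)).card : ℝ) / (n : ℝ))) := by
  intro hall
  obtain ⟨n, A, hA, hAn, x₀, hx₀, hx⟩ := Pool.Agent.Lib.MP_e664f7_nt.unbounded 2
  have h1 := hall n A hA hAn x₀ hx₀
  have h2 := hx x₀ le_rfl
  unfold Pool.Agent.Lib.MP_e664f7_nt.D at h2
  exact lt_asymm h1 h2

end Pool.Agent.S18806
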