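import Pool.Statements.S19372
import Pool.Agent.Lib.MP_64d71c_pr.PolySum

set_option autoImplicit false
open Pool Pool.MP_64d71c_pr

namespace Pool.Agent.S19372

/-- The negation of the preceding statement: If κ and κ⁰ are the half-plane adsorption free energies of square-lattice self-avoiding walks and polygons, then some α has κ⁰(α) = κ₂ while κ(α) > κ₂; equivalently, the polygon adsorption point strictly exceeds the walk adsorption point. -/
theorem result :
    ¬ (∀ κ κ0 : ℝ → ℝ,
      (∀ α : ℝ, Filter.Tendsto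
        (fun n : ℕ => (1 / (n : ℝ)) * Real.log
          (∑ m ∈ Finset.range (n + 2),
            (({w : Fin (n + 1) → ℤ × ℤ |
                w 0 = 0 ∧ Function.Injective w ∧ (∀ i, 0 ≤ (w i).2) ∧
                (∀ i : Fin n, |(w i.succ).1 - (w i.castSucc).1|
                    + |(w i.succ).2 - (w i.castSucc).2| = 1) ∧
                (Finset.univ.filter (fun i : Fin (n + 1) => (w i).2 = 0)).card = m}
              : Set (Fin (n + 1) → ℤ × ℤ)).ncard : ℝ) * Real.exp (α * (m : ℝ))))
        Filter.atTop (nhds (κ α))) →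
      (∀ α : ℝ, Filter.Tendsto
        (fun k : ℕ => (1 / ((2 * k : ℕ) : ℝ)) * Real.log
          (∑ m ∈ Finset.range (2 * k + 2),
            (({w : Fin (2 * k + 1) → ℤ × ℤ |
                w 0 = 0 ∧ w (Fin.last (2 * k)) = 0 ∧
                (∀ i j : Fin (2 * k + 1), i.val < 2 * k → j.val < 2 * k → w i = w j → i = j) ∧
                (∀ i, 0 ≤ (w i).2) ∧
                (∀ i : Fin (2 * k), |(w i.succ).1 - (w i.castSucc).1|
                    + |(w i.succ).2 - (w i.castSucc).2| = 1) ∧
                (Finset.univ.filter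
                  (fun i : Fin (2 * k + 1) => i.val < 2 * k ∧ (w i).2 = 0)).card = m}
              : Set (Fin (2 * k + 1) → ℤ × ℤ)).ncard : ℝ) * Real.exp (α * (m : ℝ))))
        Filter.atTop (nhds (κ0 α))) →
      ∃ α : ℝ, κ0 α = κ0 0 ∧ κ 0 < κ α) := by
  intro h
  have key := h (fun α => max Pool.Agent.Lib.MP64.k2 (Pool.Agent.Lib.MP64.la α))
    (fun α => Classical.choose (Pool.Agent.Lib.MP64.poly_limit α)) (by
      intro α
      refine (Pool.Agent.Lib.MP64.walk_limit α).congr (fun n => ?_)
      rw [Pool.Agent.Lib.MP64.walk_sum α n]) (by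
      intro α
      refine (Classical.choose_spec (Pool.Agent.Lib.MP64.poly_limit α)).congr' ?_
      filter_upwards [Filter.eventually_gt_atTop 0] with k hk
      rw [Pool.Agent.Lib.MP64.poly_sum' α (2 * k) (by omega)])
  obtain ⟨α, h1, h2⟩ := key
  have h3 : Pool.Agent.Lib.MP64.k2 < Pool.Agent.Lib.MP64.la α := by
    have h4 := lt_of_le_of_lt (le_max_left _ _) h2
    rcases lt_max_iff.1 h4 with h5 | h5
    · exact absurd h5 (lt_irrefl _)
    · exact h5
  have h6 := Pool.Agent.Lib.MP64.poly_gt h3
    (Classical.choose_spec (Pool.Agent.Lib.MP64.poly_limit α))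
  have h7 := Pool.Agent.Lib.MP64.poly_zero_le
    (Classical.choose_spec (Pool.Agent.Lib.MP64.poly_limit 0))
  rw [h1] at h6
  exact absurd h6 (not_lt.2 h7)

end Pool.Agent.S19372
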